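import Pool.Agent.H39.E2.Parity

open Finset

namespace H39E2

/-- integer representatives for the two test values of `1/u` modulo `q` -/
theorem exists_alpha_beta (q : ℕ) [hq : Fact q.Prime] (h7 : 7 < q) :
    ∃ α β : ℤ, ¬ (q : ℤ) ∣ α ∧ ¬ (q : ℤ) ∣ (α + 432) ∧ ¬ (q : ℤ) ∣ β ∧ ¬ (q : ℤ) ∣ (β + 432) ∧
      (∀ u : ZMod q, (α : ZMod q) * u = 1 → Even (Pts q u).card) ∧
      (∀ u : ZMod q, (β : ZMod q) * u = 1 → Odd (Pts q u).card) := by
  have gen : ∀ u : ZMod q, u ≠ 0 → 1 + 432 * u ≠ 0 → ∃ α : ℤ, ¬ (q : ℤ) ∣ α ∧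
      ¬ (q : ℤ) ∣ (α + 432) ∧ ∀ v : ZMod q, (α : ZMod q) * v = 1 → v = u := by
    intro u hu hu'
    obtain ⟨α, hα⟩ := ZMod.intCast_surjective (u⁻¹)
    refine ⟨α, ?_, ?_, ?_⟩
    · rw [← ZMod.intCast_zmod_eq_zero_iff_dvd, hα]
      exact inv_ne_zero hu
    · rw [← ZMod.intCast_zmod_eq_zero_iff_dvd]
      push_cast
      rw [hα]
      intro h
      apply hu'
      have : 1 + 432 * u = (u⁻¹ + 432) * u := by
        rw [add_mul, inv_mul_cancel₀ hu]
      rw [this, h, zero_mul]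
    · intro v hv
      rw [hα] at hv
      field_simp at hv
      exact hv
  obtain ⟨u, hu0, hu1, hu⟩ := exists_even q h7
  obtain ⟨v, hv0, hv1, hv⟩ := exists_odd q h7
  obtain ⟨α, h1, h2, h3⟩ := gen u hu0 hu1
  obtain ⟨β, h4, h5, h6⟩ := gen v hv0 hv1
  exact ⟨α, β, h1, h2, h4, h5, fun x hx => by rw [h3 x hx]; exact hu,
    fun x hx => by rw [h6 x hx]; exact hv⟩

/-- CRT with ordering -/
theorem exists_ordered (k : ℕ) (M : ℤ) (hM : 0 < M) (c' : ℕ → ℤ) :
    ∃ c : ℕ → ℤ, (∀ i < k, M ∣ c i - c' i) ∧ (∀ i < k, c i ≤ 0) ∧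
      (∀ i, i + 1 < k → c i + 434 ≤ c (i + 1)) := by
  set Z : ℤ := (∑ j ∈ range k, |c' j|) + 434 with hZ
  have hS : 0 ≤ ∑ j ∈ range k, |c' j| := Finset.sum_nonneg fun _ _ => abs_nonneg _
  have hle : ∀ i < k, |c' i| ≤ Z - 434 := by
    intro i hi
    rw [hZ]
    have := Finset.single_le_sum (f := fun j => |c' j|) (fun _ _ => abs_nonneg _) (mem_range.mpr hi)
    linarith
  refine ⟨fun i => c' i - M * (2 * Z) * ((k : ℤ) - i), ?_, ?_, ?_⟩
  · intro i _
    exact ⟨-(2 * Z * ((k : ℤ) - i)), by ring⟩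
  · intro i hi
    have h1 := abs_le.mp (hle i hi)
    have h2 : (1 : ℤ) ≤ (k : ℤ) - i := by
      have : (i : ℤ) + 1 ≤ k := by exact_mod_cast hi
      linarith
    have h3 : 2 * Z ≤ M * (2 * Z) * ((k : ℤ) - i) := by
      have h4 : 1 ≤ M * ((k : ℤ) - i) := by nlinarith
      have h5 : 0 ≤ 2 * Z := by linarith
      calc 2 * Z = 2 * Z * 1 := by ring
        _ ≤ 2 * Z * (M * ((k : ℤ) - i)) := mul_le_mul_of_nonneg_left h4 h5
        _ = _ := by ring
    simp only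
    linarith [h1.2]
  · intro i hi
    have h1 := abs_le.mp (hle i (by omega))
    have h2 := abs_le.mp (hle (i + 1) hi)
    have h3 : 2 * Z ≤ M * (2 * Z) := by nlinarith
    simp only
    push_cast
    nlinarith

/-- integer CRT for a finite family -/
theorem crt_int (s : Finset ℕ) (N t : ℕ → ℤ)
    (hcop : ∀ i ∈ s, ∀ j ∈ s, i ≠ j → IsCoprime (N i) (N j)) :
    ∃ c : ℤ, ∀ i ∈ s, N i ∣ c - t i := by
  classical
  induction s using Finset.induction_on with
  | empty => exact ⟨0, by simp⟩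
  | insert a s ha ih =>
    obtain ⟨c0, h0⟩ := ih
      (fun i hi j hj => hcop i (Finset.mem_insert_of_mem hi) j (Finset.mem_insert_of_mem hj))
    have hc : IsCoprime (∏ i ∈ s, N i) (N a) := by
      apply IsCoprime.prod_left
      intro i hi
      exact hcop i (Finset.mem_insert_of_mem hi) a (Finset.mem_insert_self _ _)
        (fun h => ha (h ▸ hi))
    obtain ⟨x, y, hxy⟩ := hc
    refine ⟨y * N a * c0 + x * (∏ i ∈ s, N i) * t a, ?_⟩
    intro i hi
    rw [Finset.mem_insert] at hi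
    rcases hi with rfl | hi
    · exact ⟨y * (c0 - t i), by linear_combination t i * hxy⟩
    · have e : N i ∣ ∏ i ∈ s, N i := Finset.dvd_prod_of_mem N hi
      have e2 : y * N a * c0 + x * (∏ i ∈ s, N i) * t a - t i =
        (∏ i ∈ s, N i) * (x * (t a - c0)) + (c0 - t i) := by
        linear_combination c0 * hxy
      rw [e2]
      exact dvd_add (e.mul_right _) (h0 i hi)

theorem exists_data (k : ℕ) :
    ∃ (q : ℕ → ℕ) (a b c : ℕ → ℤ), (∀ l, (q l).Prime) ∧ (∀ l, 7 < q l) ∧ Function.Injective q ∧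
      (∀ l, ¬ (q l : ℤ) ∣ a l ∧ ¬ (q l : ℤ) ∣ (a l + 432) ∧ ¬ (q l : ℤ) ∣ b l ∧
        ¬ (q l : ℤ) ∣ (b l + 432)) ∧
      (∀ i, ∀ _ : Fact (q (2 * i)).Prime, ∀ u : ZMod (q (2 * i)),
        ((a (2 * i) : ZMod (q (2 * i))) * u = 1 → Even (Pts (q (2 * i)) u).card) ∧
        ((b (2 * i) : ZMod (q (2 * i))) * u = 1 → Odd (Pts (q (2 * i)) u).card)) ∧
      (∀ i, ∀ _ : Fact (q (2 * i + 1)).Prime, ∀ u : ZMod (q (2 * i + 1)),
        (((a (2 * i + 1) : ZMod (q (2 * i + 1))) + 432) * u = -1 →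
          Even (Pts (q (2 * i + 1)) u).card) ∧
        (((b (2 * i + 1) : ZMod (q (2 * i + 1))) + 432) * u = -1 →
          Odd (Pts (q (2 * i + 1)) u).card)) ∧
      (∀ i < k, c i ≤ 0) ∧ (∀ i, i + 1 < k → c i + 434 ≤ c (i + 1)) ∧
      (∀ i < k, (7 : ℤ) ∣ c i) ∧
      (∀ i < k, ∀ l < 2 * k, l / 2 ≠ i → (q l : ℤ) ∣ c i) ∧
      (∀ i < k, ∀ l < 2 * k, l / 2 = i → (q l : ℤ) ∣ c i - (a l - b l)) := by
  let q : ℕ → ℕ := fun i => Nat.nth Nat.Prime (i + 8)
  have hqp : ∀ i, (q i).Prime := fun i => Nat.prime_nth_prime _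
  have hmono : StrictMono (Nat.nth Nat.Prime) := Nat.nth_strictMono Nat.infinite_setOfPred_prime
  have hq7 : ∀ i, 7 < q i := by
    intro i
    have := hmono.id_le (i + 8)
    simp only [id] at this
    have h2 : i + 8 ≤ q i := this
    omega
  have hqi : Function.Injective q := by
    intro i j hij
    have := hmono.injective hij
    omega
  have hab : ∀ i, ∃ α β : ℤ, ¬ (q i : ℤ) ∣ α ∧ ¬ (q i : ℤ) ∣ (α + 432) ∧ ¬ (q i : ℤ) ∣ β ∧
      ¬ (q i : ℤ) ∣ (β + 432) ∧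
      (∀ _ : Fact (q i).Prime, ∀ u : ZMod (q i), (α : ZMod (q i)) * u = 1 → Even (Pts (q i) u).card) ∧
      (∀ _ : Fact (q i).Prime, ∀ u : ZMod (q i), (β : ZMod (q i)) * u = 1 → Odd (Pts (q i) u).card) := by
    intro i
    have hf : Fact (q i).Prime := ⟨hqp i⟩
    obtain ⟨α, β, h1, h2, h3, h4, h5, h6⟩ := exists_alpha_beta (q i) (hq7 i)
    exact ⟨α, β, h1, h2, h3, h4, fun _ => h5, fun _ => h6⟩
  choose α β h1 h2 h3 h4 h5 h6 using hab
  let a : ℕ → ℤ := fun l => if l % 2 = 0 then α l else -432 - α l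
  let b : ℕ → ℤ := fun l => if l % 2 = 0 then β l else -432 - β l
  have ha0 : ∀ i, a (2 * i) = α (2 * i) := fun i => if_pos (by omega)
  have hb0 : ∀ i, b (2 * i) = β (2 * i) := fun i => if_pos (by omega)
  have ha1 : ∀ i, a (2 * i + 1) = -432 - α (2 * i + 1) := fun i => if_neg (by omega)
  have hb1 : ∀ i, b (2 * i + 1) = -432 - β (2 * i + 1) := fun i => if_neg (by omega)
  have hcop : ∀ i j, i ≠ j → IsCoprime (q i : ℤ) (q j : ℤ) := by
    intro i j hij
    rw [Nat.isCoprime_iff_coprime]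
    exact (Nat.coprime_primes (hqp i) (hqp j)).mpr (fun h => hij (hqi h))
  set M : ℤ := 7 * ∏ j ∈ range (2 * k), (q j : ℤ) with hM
  have hMpos : 0 < M := by
    rw [hM]
    have : 0 < ∏ j ∈ range (2 * k), (q j : ℤ) := Finset.prod_pos fun j _ => by
      exact_mod_cast (hqp j).pos
    linarith
  have hc' : ∀ i, ∃ c' : ℤ, (7 : ℤ) ∣ c' ∧ (∀ l < 2 * k, l / 2 ≠ i → (q l : ℤ) ∣ c') ∧
      (∀ l < 2 * k, l / 2 = i → (q l : ℤ) ∣ c' - (a l - b l)) := by
    intro i
    obtain ⟨e, he⟩ := crt_int (range (2 * k)) (fun l => (q l : ℤ))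
      (fun l => if l / 2 = i then a l - b l else 0) (fun l _ l' _ h => hcop l l' h)
    have h7c : IsCoprime (∏ j ∈ range (2 * k), (q j : ℤ)) 7 := by
      apply IsCoprime.prod_left
      intro i _
      have : IsCoprime ((q i : ℕ) : ℤ) ((7 : ℕ) : ℤ) := by
        rw [Nat.isCoprime_iff_coprime]
        exact (Nat.coprime_primes (hqp i) (by norm_num)).mpr (by have := hq7 i; omega)
      exact_mod_cast this
    obtain ⟨x, y, hxy⟩ := h7c
    -- `e * (7 y)` is `e` modulo the product and `0` modulo `7`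
    have hmod : ∀ l < 2 * k, (q l : ℤ) ∣ 7 * (y * e) - e := by
      intro l hl
      have e1 : (q l : ℤ) ∣ ∏ j ∈ range (2 * k), (q j : ℤ) :=
        Finset.dvd_prod_of_mem (fun j => (q j : ℤ)) (mem_range.mpr hl)
      have e2 : 7 * (y * e) - e = (∏ j ∈ range (2 * k), (q j : ℤ)) * (-(x * e)) := by
        linear_combination e * hxy
      rw [e2]; exact e1.mul_right _
    refine ⟨7 * (y * e), dvd_mul_right _ _, ?_, ?_⟩
    · intro l hl hne
      have h := he l (mem_range.mpr hl)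
      simp only [if_neg hne, sub_zero] at h
      have := dvd_add (hmod l hl) h
      rwa [sub_add_cancel] at this
    · intro l hl heq
      have h := he l (mem_range.mpr hl)
      simp only [if_pos heq] at h
      have := dvd_add (hmod l hl) h
      rwa [sub_add_sub_cancel] at this
  choose c' hc1 hc2 hc3 using hc'
  obtain ⟨c, hcM, hc0, hcg⟩ := exists_ordered k M hMpos c'
  have hneg : ∀ (l : ℕ) (x : ℤ), ¬ (q l : ℤ) ∣ x → ¬ (q l : ℤ) ∣ (-432 - x + 432) := by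
    intro l x hx h
    have e : -432 - x + 432 = -x := by ring
    rw [e, dvd_neg] at h
    exact hx h
  have hneg2 : ∀ (l : ℕ) (x : ℤ), ¬ (q l : ℤ) ∣ (x + 432) → ¬ (q l : ℤ) ∣ (-432 - x) := by
    intro l x hx h
    have e : -432 - x = -(x + 432) := by ring
    rw [e, dvd_neg] at h
    exact hx h
  refine ⟨q, a, b, c, hqp, hq7, hqi, ?_, ?_, ?_, hc0, hcg, ?_, ?_, ?_⟩
  · intro l
    rcases Nat.even_or_odd' l with ⟨i, rfl | rfl⟩
    · rw [ha0, hb0]
      exact ⟨h1 _, h2 _, h3 _, h4 _⟩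
    · rw [ha1, hb1]
      exact ⟨hneg2 _ _ (h2 _), hneg _ _ (h1 _), hneg2 _ _ (h4 _), hneg _ _ (h3 _)⟩
  · intro i hf u
    rw [ha0, hb0]
    exact ⟨h5 _ hf u, h6 _ hf u⟩
  · intro i hf u
    rw [ha1, hb1]
    constructor
    · intro h
      apply h5 _ hf u
      push_cast at h
      linear_combination -h
    · intro h
      apply h6 _ hf u
      push_cast at h
      linear_combination -h
  · intro i hi
    have h := (dvd_mul_right (7 : ℤ) (∏ j ∈ range (2 * k), (q j : ℤ))).trans (hcM i hi)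
    have := dvd_add h (hc1 i)
    rwa [sub_add_cancel] at this
  · intro i hi l hl hil
    have h : (q l : ℤ) ∣ M := by
      rw [hM]; apply Dvd.dvd.mul_left
      exact Finset.dvd_prod_of_mem (fun j => (q j : ℤ)) (mem_range.mpr hl)
    have := dvd_add (h.trans (hcM i hi)) (hc2 i l hl hil)
    rwa [sub_add_cancel] at this
  · intro i hi l hl hil
    have h : (q l : ℤ) ∣ M := by
      rw [hM]; apply Dvd.dvd.mul_left
      exact Finset.dvd_prod_of_mem (fun j => (q j : ℤ)) (mem_range.mpr hl)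
    have := dvd_add (h.trans (hcM i hi)) (hc3 i l hl hil)
    rwa [sub_add_sub_cancel] at this

end H39E2
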