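import Pool.Agent.H39.E1.Poly

open Polynomial

namespace H39E2

theorem monic_add_low (A R : ℤ[X]) (m : ℕ) (hA : A.Monic) (hAd : A.natDegree = m)
    (hR : R.degree < m) : (A + R).Monic ∧ (A + R).natDegree = m := by
  have h : R.degree < A.degree := by rwa [degree_eq_natDegree hA.ne_zero, hAd]
  exact ⟨hA.add_of_left h, by rw [natDegree_add_eq_left_of_degree_lt h, hAd]⟩

theorem hermite_one (m : ℕ) (hm : 2 ≤ m) (a c d : ℤ) :
    ∃ H : ℤ[X], H.Monic ∧ H.natDegree = m ∧ H.eval a = c ∧ H.derivative.eval a = d := by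
  obtain ⟨r, rfl⟩ : ∃ r, m = r + 2 := ⟨m - 2, by omega⟩
  have hA : ((X - C a) ^ 2 * X ^ r : ℤ[X]).Monic := ((monic_X_sub_C _).pow _).mul (monic_X_pow _)
  have hAd : ((X - C a) ^ 2 * X ^ r : ℤ[X]).natDegree = r + 2 := by
    rw [((monic_X_sub_C _).pow _).natDegree_mul (monic_X_pow _), (monic_X_sub_C _).natDegree_pow,
      natDegree_X_sub_C, natDegree_X_pow]
    ring
  have hlin : (C d * (X - C a) + C c : ℤ[X]).degree < ((r + 2 : ℕ) : WithBot ℕ) := by
    have : (C d * (X - C a) + C c : ℤ[X]) = C d * X + C (c - d * a) := by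
      rw [C_sub, C_mul]; ring
    rw [this]
    refine lt_of_le_of_lt degree_linear_le ?_
    exact_mod_cast hm
  obtain ⟨h1, h2⟩ := monic_add_low _ _ _ hA hAd hlin
  refine ⟨_, h1, h2, ?_, ?_⟩
  · simp only [eval_add, eval_mul, eval_sub, eval_X, eval_C, eval_pow]
    ring
  · rw [derivative_add, derivative_mul]
    simp only [derivative_sub, derivative_add, derivative_X, derivative_C, derivative_C_mul,
      eval_add, eval_mul, eval_sub, eval_X, eval_C, eval_pow, eval_one, derivative_pow]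
    norm_num

theorem hermite_seven (m : ℕ) (hm : 4 ≤ m) (c1 d1 c2 d2 : ℤ) :
    ∃ H : ℤ[X], H.Monic ∧ H.natDegree = m ∧ (7 : ℤ) ∣ H.eval 3 - c1 ∧
      (7 : ℤ) ∣ H.derivative.eval 3 - d1 ∧ (7 : ℤ) ∣ H.eval 5 - c2 ∧
      (7 : ℤ) ∣ H.derivative.eval 5 - d2 := by
  obtain ⟨r, rfl⟩ : ∃ r, m = r + 4 := ⟨m - 4, by omega⟩
  have hA : ((X - C 3) ^ 2 * (X - C 5) ^ 2 * X ^ r : ℤ[X]).Monic :=
    (((monic_X_sub_C _).pow _).mul ((monic_X_sub_C _).pow _)).mul (monic_X_pow _)
  have hAd : ((X - C 3) ^ 2 * (X - C 5) ^ 2 * X ^ r : ℤ[X]).natDegree = r + 4 := by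
    rw [(((monic_X_sub_C _).pow _).mul ((monic_X_sub_C _).pow _)).natDegree_mul (monic_X_pow _),
      ((monic_X_sub_C _).pow _).natDegree_mul ((monic_X_sub_C _).pow _),
      (monic_X_sub_C _).natDegree_pow, (monic_X_sub_C _).natDegree_pow,
      natDegree_X_sub_C, natDegree_X_sub_C, natDegree_X_pow]
    ring
  set α : ℤ := 2 * c1 with hα
  set β : ℤ := α + 2 * d1 with hβ
  set γ : ℤ := 2 * c2 with hγ
  set δ : ℤ := -γ + 2 * d2 with hδ
  set ρ : ℤ[X] := (X - C 5) ^ 2 * (C α + C β * (X - C 3)) +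
    (X - C 3) ^ 2 * (C γ + C δ * (X - C 5)) with hρ
  have hlin : ρ.degree < ((r + 4 : ℕ) : WithBot ℕ) := by
    have h3 : ρ.natDegree ≤ 3 := by
      rw [hρ]
      have hl : ∀ x y z : ℤ, (C x + C y * (X - C z) : ℤ[X]).natDegree ≤ 1 := by
        intro x y z
        have : (C x + C y * (X - C z) : ℤ[X]) = C y * X + C (x - y * z) := by
          rw [C_sub, C_mul]; ring
        rw [this]
        exact natDegree_linear_le
      have hq : ∀ z : ℤ, ((X - C z) ^ 2 : ℤ[X]).natDegree = 2 := by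
        intro z
        rw [(monic_X_sub_C _).natDegree_pow, natDegree_X_sub_C]
      apply natDegree_add_le_of_degree_le
      · refine natDegree_mul_le.trans ?_
        rw [hq]; have := hl α β 3; omega
      · refine natDegree_mul_le.trans ?_
        rw [hq]; have := hl γ δ 5; omega
    refine lt_of_le_of_lt degree_le_natDegree ?_
    exact_mod_cast (by omega : ρ.natDegree < r + 4)
  obtain ⟨h1, h2⟩ := monic_add_low _ _ _ hA hAd hlin
  refine ⟨_, h1, h2, ?_, ?_, ?_, ?_⟩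
  · rw [hρ]
    simp only [eval_add, eval_mul, eval_sub, eval_X, eval_C, eval_pow]
    exact ⟨c1, by rw [hα]; ring⟩
  · rw [hρ]
    simp only [derivative_mul, derivative_sub, derivative_add, derivative_X, derivative_C,
      eval_add, eval_mul, eval_sub, eval_X, eval_C, eval_pow, eval_one, derivative_pow, eval_zero]
    exact ⟨d1, by rw [hβ]; norm_num; ring⟩
  · rw [hρ]
    simp only [eval_add, eval_mul, eval_sub, eval_X, eval_C, eval_pow]
    exact ⟨c2, by rw [hγ]; ring⟩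
  · rw [hρ]
    simp only [derivative_mul, derivative_sub, derivative_add, derivative_X, derivative_C,
      eval_add, eval_mul, eval_sub, eval_X, eval_C, eval_pow, eval_one, derivative_pow, eval_zero]
    exact ⟨d2, by rw [hδ]; norm_num; ring⟩

theorem eval_C_dvd {N : ℤ} {q q' : ℤ[X]} (h : C N ∣ q - q') (x : ℤ) :
    N ∣ q.eval x - q'.eval x ∧ N ∣ q.derivative.eval x - q'.derivative.eval x := by
  obtain ⟨c, hc⟩ := h
  constructor
  · rw [← eval_sub, hc, eval_mul, eval_C]; exact dvd_mul_right _ _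
  · rw [← eval_sub, ← derivative_sub, hc, derivative_C_mul, eval_mul, eval_C]
    exact dvd_mul_right _ _

/-- one prescribed simple root modulo a prime `q` -/
theorem local_one (m : ℕ) (hm : 2 ≤ m) (q : ℕ) (hq : q.Prime) (P : ℤ[X]) (a : ℤ)
    (hP : ¬ (q : ℤ) ∣ P.eval a) :
    ∃ H : ℤ[X], H.Monic ∧ H.natDegree = m ∧ ∀ h : ℤ[X], C (q : ℤ) ∣ h - H →
      (q : ℤ) ∣ (P * h - 1).eval a ∧ ¬ (q : ℤ) ∣ (P * h - 1).derivative.eval a := by
  have hqi : Prime (q : ℤ) := Nat.prime_iff_prime_int.mp hq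
  obtain ⟨x, y, hxy⟩ : IsCoprime (q : ℤ) (P.eval a) := (Prime.coprime_iff_not_dvd hqi).mpr hP
  -- x q + y P(a) = 1
  obtain ⟨H, hHm, hHd, hH1, hH2⟩ := hermite_one m hm a y (y * (1 - P.derivative.eval a * y))
  refine ⟨H, hHm, hHd, fun h hh => ?_⟩
  obtain ⟨⟨e1, he1⟩, ⟨e2, he2⟩⟩ := eval_C_dvd hh a
  have hv : h.eval a = y + q * e1 := by rw [← hH1]; linarith
  have hv' : h.derivative.eval a = y * (1 - P.derivative.eval a * y) + q * e2 := by
    rw [← hH2]; linarith
  constructor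
  · rw [eval_sub, eval_mul, eval_one, hv]
    exact ⟨P.eval a * e1 - x, by linear_combination hxy⟩
  · rw [derivative_sub, derivative_mul, derivative_one, sub_zero, eval_add, eval_mul, eval_mul, hv, hv']
    intro hd
    have h1 : (q : ℤ) ∣ 1 := by
      have e : P.derivative.eval a * (y + q * e1) + P.eval a * (y * (1 - P.derivative.eval a * y) + q * e2)
        = 1 + q * (P.derivative.eval a * e1 + P.eval a * e2 - x * (1 - P.derivative.eval a * y)) := by
        linear_combination (1 - P.derivative.eval a * y) * hxy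
      rw [e] at hd
      exact (dvd_add_left (dvd_mul_right _ _)).mp hd
    exact hqi.not_dvd_one h1

/-- prescribed simple roots `3` and `5` modulo `7` -/
theorem local_seven (m : ℕ) (hm : 4 ≤ m) (P : ℤ[X]) (hP3 : ¬ (7 : ℤ) ∣ P.eval 3)
    (hP5 : ¬ (7 : ℤ) ∣ P.eval 5) :
    ∃ H : ℤ[X], H.Monic ∧ H.natDegree = m ∧ ∀ h : ℤ[X], C (7 : ℤ) ∣ h - H →
      ((7 : ℤ) ∣ (P * h - 1).eval 3 ∧ ¬ (7 : ℤ) ∣ (P * h - 1).derivative.eval 3) ∧
      ((7 : ℤ) ∣ (P * h - 1).eval 5 ∧ ¬ (7 : ℤ) ∣ (P * h - 1).derivative.eval 5) := by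
  have h7 : Prime (7 : ℤ) := by exact_mod_cast Nat.prime_iff_prime_int.mp (by norm_num : Nat.Prime 7)
  obtain ⟨x, y, hxy⟩ : IsCoprime (7 : ℤ) (P.eval 3) := (Prime.coprime_iff_not_dvd h7).mpr hP3
  obtain ⟨x', y', hxy'⟩ : IsCoprime (7 : ℤ) (P.eval 5) := (Prime.coprime_iff_not_dvd h7).mpr hP5
  obtain ⟨H, hHm, hHd, k1, k2, k3, k4⟩ := hermite_seven m hm y (y * (1 - P.derivative.eval 3 * y))
    y' (y' * (1 - P.derivative.eval 5 * y'))
  refine ⟨H, hHm, hHd, fun h hh => ?_⟩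
  have gen : ∀ a x y : ℤ, x * 7 + y * P.eval a = 1 → (7 : ℤ) ∣ H.eval a - y →
      (7 : ℤ) ∣ H.derivative.eval a - y * (1 - P.derivative.eval a * y) →
      ((7 : ℤ) ∣ (P * h - 1).eval a ∧ ¬ (7 : ℤ) ∣ (P * h - 1).derivative.eval a) := by
    intro a x y hxy k1 k2
    obtain ⟨e1, he1⟩ := dvd_add (eval_C_dvd hh a).1 k1
    obtain ⟨e2, he2⟩ := dvd_add (eval_C_dvd hh a).2 k2
    have hv : h.eval a = y + 7 * e1 := by linarith
    have hv' : h.derivative.eval a = y * (1 - P.derivative.eval a * y) + 7 * e2 := by linarith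
    constructor
    · rw [eval_sub, eval_mul, eval_one, hv]
      exact ⟨P.eval a * e1 - x, by linear_combination hxy⟩
    · rw [derivative_sub, derivative_mul, derivative_one, sub_zero, eval_add, eval_mul, eval_mul, hv, hv']
      intro hd
      have h1 : (7 : ℤ) ∣ 1 := by
        have e : P.derivative.eval a * (y + 7 * e1) + P.eval a * (y * (1 - P.derivative.eval a * y) + 7 * e2)
          = 1 + 7 * (P.derivative.eval a * e1 + P.eval a * e2 - x * (1 - P.derivative.eval a * y)) := by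
          linear_combination (1 - P.derivative.eval a * y) * hxy
        rw [e] at hd
        exact (dvd_add_left (dvd_mul_right _ _)).mp hd
      exact h7.not_dvd_one h1
  exact ⟨gen 3 x y hxy k1 k2, gen 5 x' y' hxy' k3 k4⟩

theorem exists_mod_p (p : ℕ) [hp : Fact p.Prime] (P : (ZMod p)[X]) (hP : P.Monic) (D r c m : ℕ)
    (hPd : P.natDegree = D) (hD : D + 1 ≤ c) (hr : 1 ≤ r) (hm : m + D = r + c) (hP1 : P.eval 1 ≠ 0) :
    ∃ H S : (ZMod p)[X], H.Monic ∧ H.natDegree = m ∧ P * H - 1 = (X - C 1) ^ r * S ∧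
      S.eval 1 ≠ 0 := by
  have hcop : IsCoprime ((X - C 1) ^ r : (ZMod p)[X]) P := by
    apply IsCoprime.pow_left
    rw [(irreducible_X_sub_C (1 : ZMod p)).coprime_iff_not_dvd, dvd_iff_isRoot]
    exact hP1
  obtain ⟨a, b, hab⟩ := hcop
  set V := (-a) %ₘ P with hV
  set Q := (-a) /ₘ P with hQ
  have hdiv : V + P * Q = -a := modByMonic_add_div (-a) P
  have hVd : V.degree < P.degree := degree_modByMonic_lt _ hP
  have hPdeg : P.degree = (D : WithBot ℕ) := by rw [degree_eq_natDegree hP.ne_zero, hPd]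
  have hkey : ∀ e : ZMod p, ∃ H : (ZMod p)[X], H.Monic ∧ H.natDegree = m ∧
      P * H - 1 = (X - C 1) ^ r * (P * (X ^ (c - D) + C e) + V) := by
    intro e
    have hT : (X ^ (c - D) + C e : (ZMod p)[X]).Monic := monic_X_pow_add_C _ (by omega)
    have hTd : (X ^ (c - D) + C e : (ZMod p)[X]).natDegree = c - D := natDegree_X_pow_add_C
    have hPT : (P * (X ^ (c - D) + C e)).Monic := hP.mul hT
    have hPTd : (P * (X ^ (c - D) + C e)).natDegree = c := by
      rw [hP.natDegree_mul hT, hPd, hTd]; omega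
    have hlt : V.degree < (P * (X ^ (c - D) + C e)).degree := by
      rw [degree_eq_natDegree hPT.ne_zero, hPTd]
      rw [hPdeg] at hVd
      exact lt_trans hVd (by exact_mod_cast (by omega : D < c))
    have hS : (P * (X ^ (c - D) + C e) + V).Monic := hPT.add_of_left hlt
    have hSd : (P * (X ^ (c - D) + C e) + V).natDegree = c := by
      rw [natDegree_add_eq_left_of_degree_lt hlt, hPTd]
    have hA : ((X - C 1) ^ r * (P * (X ^ (c - D) + C e) + V)).Monic := ((monic_X_sub_C _).pow _).mul hS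
    have hAd : ((X - C 1) ^ r * (P * (X ^ (c - D) + C e) + V)).natDegree = r + c := by
      rw [((monic_X_sub_C _).pow _).natDegree_mul hS, (monic_X_sub_C _).natDegree_pow,
        natDegree_X_sub_C, hSd]; ring
    have hlt1 : (1 : (ZMod p)[X]).degree < ((X - C 1) ^ r * (P * (X ^ (c - D) + C e) + V)).degree := by
      rw [degree_one, degree_eq_natDegree hA.ne_zero, hAd]
      exact_mod_cast (by omega : 0 < r + c)
    have hB : ((X - C 1) ^ r * (P * (X ^ (c - D) + C e) + V) + 1).Monic := hA.add_of_left hlt1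
    have hBd : ((X - C 1) ^ r * (P * (X ^ (c - D) + C e) + V) + 1).natDegree = r + c := by
      rw [natDegree_add_eq_left_of_degree_lt hlt1, hAd]
    have hfac : (X - C 1) ^ r * (P * (X ^ (c - D) + C e) + V) + 1 =
        P * ((X - C 1) ^ r * (X ^ (c - D) + C e) + (b - (X - C 1) ^ r * Q)) := by
      linear_combination (X - C 1) ^ r * hdiv - hab
    rw [hfac] at hB hBd
    have hHm := hP.of_mul_monic_left hB
    refine ⟨_, hHm, ?_, ?_⟩
    · rw [hP.natDegree_mul hHm, hPd] at hBd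
      omega
    · rw [← hfac]; ring
  by_cases h0 : P.eval 1 + V.eval 1 = 0
  · obtain ⟨H, h1, h2, h3⟩ := hkey 1
    refine ⟨H, _, h1, h2, h3, ?_⟩
    simp only [eval_add, eval_mul, eval_pow, eval_X, eval_C, one_pow]
    intro h4
    apply hP1
    linear_combination h4 - h0
  · obtain ⟨H, h1, h2, h3⟩ := hkey 0
    refine ⟨H, _, h1, h2, h3, ?_⟩
    simp only [eval_add, eval_mul, eval_pow, eval_X, eval_C, one_pow]
    intro h4
    apply h0
    linear_combination h4

theorem lift_monic (p : ℕ) (H : (ZMod p)[X]) (hH : H.Monic) :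
    ∃ H' : ℤ[X], H'.map (Int.castRingHom (ZMod p)) = H ∧ H'.natDegree = H.natDegree ∧ H'.Monic :=
  lifts_and_natDegree_eq_and_monic (by
    rw [mem_lifts]
    exact Polynomial.map_surjective _ (ZMod.ringHom_surjective _) H) hH

theorem C_dvd_of_map_zero (p : ℕ) (q : ℤ[X]) (h : q.map (Int.castRingHom (ZMod p)) = 0) :
    ∃ U : ℤ[X], q = C (p : ℤ) * U := by
  have : C (p : ℤ) ∣ q := by
    rw [C_dvd_iff_dvd_coeff]
    intro i
    have h1 := congrArg (fun f => f.coeff i) h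
    simp only [coeff_map, coeff_zero] at h1
    exact (ZMod.intCast_zmod_eq_zero_iff_dvd _ _).mp h1
  exact this

theorem local_p (p : ℕ) (hp : p.Prime) (P : ℤ[X]) (hP : P.Monic) (D r c m : ℕ)
    (hPd : P.natDegree = D) (hD : D + 1 ≤ c) (hr : 1 ≤ r) (hm : m + D = r + c)
    (hP1 : ¬ (p : ℤ) ∣ P.eval 1) :
    ∃ H : ℤ[X], H.Monic ∧ H.natDegree = m ∧ ∀ h : ℤ[X], C ((p : ℤ) ^ 2) ∣ h - H →
      ∃ S U : ℤ[X], P * h - 1 = (X - 1) ^ r * S + C (p : ℤ) * U ∧ ¬ (p : ℤ) ∣ S.eval 1 ∧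
        ¬ (p : ℤ) ∣ U.eval 1 := by
  have hpf : Fact p.Prime := ⟨hp⟩
  have hpi : Prime (p : ℤ) := Nat.prime_iff_prime_int.mp hp
  have hev1 : ∀ q : ℤ[X], (q.map (Int.castRingHom (ZMod p))).eval 1 = ((q.eval 1 : ℤ) : ZMod p) := by
    intro q
    rw [eval_map]
    have h := Polynomial.eval₂_at_apply (Int.castRingHom (ZMod p)) (1 : ℤ) (p := q)
    rw [map_one] at h
    exact h
  obtain ⟨Hb, Sb, hHb, hHbd, hfac, hSb⟩ := exists_mod_p p (P.map (Int.castRingHom (ZMod p)))
    (hP.map _) D r c m (by rw [hP.natDegree_map, hPd]) hD hr hm (by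
      rw [hev1]
      intro h; exact hP1 ((ZMod.intCast_zmod_eq_zero_iff_dvd _ _).mp h))
  obtain ⟨H', hH'1, hH'2, hH'3⟩ := lift_monic p Hb hHb
  obtain ⟨S, hS⟩ := Polynomial.map_surjective (Int.castRingHom (ZMod p)) (ZMod.ringHom_surjective _) Sb
  obtain ⟨U', hU'⟩ := C_dvd_of_map_zero p (P * H' - 1 - (X - 1) ^ r * S) (by
    rw [Polynomial.map_sub, Polynomial.map_sub, Polynomial.map_mul, Polynomial.map_mul, hH'1, hS,
      Polynomial.map_one, hfac, Polynomial.map_pow, Polynomial.map_sub, map_X, Polynomial.map_one,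
      C_1, sub_self])
  obtain ⟨x, y, hxy⟩ : IsCoprime (p : ℤ) (P.eval 1) := (Prime.coprime_iff_not_dvd hpi).mpr hP1
  set κ : ℤ := y * (1 - U'.eval 1) with hκ
  have hmpos : 1 ≤ m := by omega
  obtain ⟨hm1, hm2⟩ := monic_add_low H' (C (p * κ)) m hH'3 (by rw [hH'2, hHbd]) (by
    refine lt_of_le_of_lt degree_C_le ?_
    exact_mod_cast hmpos)
  refine ⟨H' + C (p * κ), hm1, hm2, ?_⟩
  rintro h ⟨e0, he0⟩
  refine ⟨S, U' + C κ * P + C (p : ℤ) * (P * e0), ?_, ?_, ?_⟩
  · have e1 : h = H' + C (p * κ) + C ((p : ℤ) ^ 2) * e0 := by rw [← he0]; ring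
    rw [e1, C_mul, C_pow]
    linear_combination hU'
  · intro h1
    apply hSb
    rw [← hS, hev1]
    exact (ZMod.intCast_zmod_eq_zero_iff_dvd _ _).mpr h1
  · simp only [eval_add, eval_mul, eval_C]
    intro h1
    have e : U'.eval 1 + κ * P.eval 1 + p * (P.eval 1 * e0.eval 1) =
      1 + p * (P.eval 1 * e0.eval 1 - x * (1 - U'.eval 1)) := by
      rw [hκ]; linear_combination (1 - U'.eval 1) * hxy
    rw [e] at h1
    exact hpi.not_dvd_one ((dvd_add_left (dvd_mul_right _ _)).mp h1)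

end H39E2
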