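import Pool.Agent.H39.E1.Poly
import Pool.Agent.H39.E2.Local

open Polynomial

namespace H39E2

open H39E1

theorem crt_family (m : ℕ) (s : Finset ℕ) (N : ℕ → ℤ) (H : ℕ → ℤ[X])
    (hcop : ∀ i ∈ s, ∀ j ∈ s, i ≠ j → IsCoprime (N i) (N j))
    (hm : ∀ i ∈ s, (H i).Monic ∧ (H i).natDegree = m) :
    ∃ H0 : ℤ[X], H0.Monic ∧ H0.natDegree = m ∧ ∀ i ∈ s, C (N i) ∣ H0 - H i := by
  classical
  induction s using Finset.induction_on with
  | empty => exact ⟨X ^ m, monic_X_pow m, natDegree_X_pow m, by simp⟩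
  | insert a s ha ih =>
    obtain ⟨H0, h1, h2, h3⟩ := ih
      (fun i hi j hj => hcop i (Finset.mem_insert_of_mem hi) j (Finset.mem_insert_of_mem hj))
      (fun i hi => hm i (Finset.mem_insert_of_mem hi))
    have hc : IsCoprime (∏ i ∈ s, N i) (N a) := by
      apply IsCoprime.prod_left
      intro i hi
      exact hcop i (Finset.mem_insert_of_mem hi) a (Finset.mem_insert_self _ _)
        (fun h => ha (h ▸ hi))
    have hma := hm a (Finset.mem_insert_self _ _)
    obtain ⟨H1, k1, k2, k3, k4⟩ := crt_monic m _ _ hc H0 (H a) h1 hma.1 h2 hma.2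
    refine ⟨H1, k1, k2, ?_⟩
    intro i hi
    rw [Finset.mem_insert] at hi
    rcases hi with rfl | hi
    · exact k4
    · have e : C (N i) ∣ C (∏ i ∈ s, N i) := by
        have := Finset.dvd_prod_of_mem N hi
        obtain ⟨t, ht⟩ := this
        rw [ht, C_mul]; exact dvd_mul_right _ _
      have := dvd_add (e.trans k3) (h3 i hi)
      rwa [sub_add_sub_cancel] at this

end H39E2
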