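import Mathlib

open Polynomial

namespace H39E2

theorem roots_structure (g : ℤ[X]) (hg : g ≠ 0) (x : ℕ → ℤ) (hx : ∀ k < g.natDegree, x k < x (k+1))
    (hs : ∀ k < g.natDegree, g.eval (x k) * g.eval (x (k+1)) < 0) :
    ∃ r : Fin g.natDegree → ℝ, (∀ k : Fin g.natDegree, (x k : ℝ) < r k ∧ r k < (x (k+1) : ℝ)) ∧
      (g.map (Int.castRingHom ℂ)).roots.Nodup ∧
      ∀ z ∈ (g.map (Int.castRingHom ℂ)).roots, ∃ k, z = ((r k : ℝ) : ℂ) := by
  set n := g.natDegree with hn
  have hev : ∀ a : ℤ, (aeval (a : ℝ) g) = ((g.eval a : ℤ) : ℝ) := by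
    intro a
    have := Polynomial.aeval_algebraMap_apply_eq_algebraMap_eval (A := ℝ) a g
    simpa using this
  have hroot : ∀ k : Fin n, ∃ r : ℝ, (x k : ℝ) < r ∧ r < (x (k+1) : ℝ) ∧ aeval r g = 0 := by
    intro k
    have hk := k.2
    have hlt : (x k : ℝ) ≤ (x (k+1) : ℝ) := by exact_mod_cast (hx k hk).le
    have hcont : Continuous (fun r : ℝ => aeval r g) := Polynomial.continuous_aeval g
    have hsk := hs k hk
    have h1 : aeval (x k : ℝ) g * aeval (x (k+1) : ℝ) g < 0 := by
      rw [hev, hev]; exact_mod_cast hsk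
    have h2 : (0:ℝ) ∈ (fun r : ℝ => aeval r g) '' Set.Icc (x k : ℝ) (x (k+1) : ℝ) := by
      have h3 := intermediate_value_uIcc (f := fun r : ℝ => aeval r g) (a := (x k : ℝ)) (b := (x (k+1) : ℝ)) hcont.continuousOn
      rw [Set.uIcc_of_le hlt] at h3
      apply h3
      rcases mul_neg_iff.mp h1 with h | h
      · exact Set.mem_uIcc.mpr (Or.inr ⟨h.2.le, h.1.le⟩)
      · exact Set.mem_uIcc.mpr (Or.inl ⟨h.1.le, h.2.le⟩)
    obtain ⟨r, hr, hr0⟩ := h2
    refine ⟨r, lt_of_le_of_ne hr.1 ?_, lt_of_le_of_ne hr.2 ?_, hr0⟩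
    · rintro rfl
      simp only at hr0
      rw [hr0, zero_mul] at h1
      exact lt_irrefl _ h1
    · rintro rfl
      simp only at hr0
      rw [hr0, mul_zero] at h1
      exact lt_irrefl _ h1
  choose r hr1 hr2 hr0 using hroot
  have hmono : ∀ i j : ℕ, i ≤ j → j ≤ n → x i ≤ x j := by
    intro i j hij
    induction j, hij using Nat.le_induction with
    | base => intro _; exact le_rfl
    | succ m hm ih => intro h; exact (ih (by omega)).trans (hx m (by omega)).le
  have hinj : Function.Injective (fun k => ((r k : ℝ) : ℂ)) := by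
    have hlt : ∀ i j : Fin n, i < j → r i < r j := by
      intro i j hij
      have h1 := hmono (i+1) j (by simpa using hij) j.2.le
      have h2 : (x (i+1) : ℝ) ≤ (x j : ℝ) := by exact_mod_cast h1
      linarith [hr2 i, hr1 j]
    intro i j hij
    have hij' : r i = r j := Complex.ofReal_injective hij
    rcases lt_trichotomy i j with h | h | h
    · exact absurd hij' (hlt i j h).ne
    · exact h
    · exact absurd hij' (hlt j i h).ne'
  classical
  let S : Finset ℂ := Finset.univ.image (fun k => ((r k : ℝ) : ℂ))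
  have hcard : S.card = n := by
    rw [Finset.card_image_of_injective _ hinj, Finset.card_univ, Fintype.card_fin]
  have hmap0 : g.map (Int.castRingHom ℂ) ≠ 0 := by
    rw [Ne, Polynomial.map_eq_zero_iff (RingHom.injective_int _)]
    exact hg
  have hdeg : (g.map (Int.castRingHom ℂ)).natDegree = n :=
    Polynomial.natDegree_map_eq_of_injective (RingHom.injective_int _) g
  have hsub : S ⊆ (g.map (Int.castRingHom ℂ)).roots.toFinset := by
    intro y hy
    rw [Multiset.mem_toFinset, Polynomial.mem_roots hmap0, IsRoot.def, Polynomial.eval_map,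
      ← algebraMap_int_eq, ← Polynomial.aeval_def]
    rw [Finset.mem_image] at hy
    obtain ⟨k, -, rfl⟩ := hy
    have := Polynomial.aeval_algebraMap_apply (A := ℝ) ℂ (r k) g
    rw [hr0 k] at this
    simpa using this
  have h1 : S.card ≤ (g.map (Int.castRingHom ℂ)).roots.toFinset.card := Finset.card_le_card hsub
  have h2 : (g.map (Int.castRingHom ℂ)).roots.toFinset.card ≤ Multiset.card (g.map (Int.castRingHom ℂ)).roots :=
    Multiset.toFinset_card_le _
  have h3 : Multiset.card (g.map (Int.castRingHom ℂ)).roots ≤ n := by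
    rw [← hdeg]; exact Polynomial.card_roots' _
  refine ⟨r, fun k => ⟨hr1 k, hr2 k⟩, ?_, ?_⟩
  · rw [← Multiset.toFinset_card_eq_card_iff_nodup]
    omega
  · intro z hz
    have hS : S = (g.map (Int.castRingHom ℂ)).roots.toFinset := Finset.eq_of_subset_of_card_le hsub (by omega)
    have : z ∈ S := by rw [hS, Multiset.mem_toFinset]; exact hz
    rw [Finset.mem_image] at this
    obtain ⟨k, -, hk⟩ := this
    exact ⟨k, hk.symm⟩

/-- A nonconstant monic integer polynomial with value `±1` at an integer has a complex root at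
distance at most `1` from it. -/
theorem exists_close_root (a : ℤ[X]) (ha : a.Monic) (had : a.natDegree ≠ 0) (z0 : ℤ)
    (h1 : |a.eval z0| = 1) :
    ∃ z ∈ (a.map (Int.castRingHom ℂ)).roots, ‖(z0 : ℂ) - z‖ ≤ 1 := by
  by_contra hcon
  push Not at hcon
  have hsplit : (a.map (Int.castRingHom ℂ)).Splits := IsAlgClosed.splits _
  have ham : (a.map (Int.castRingHom ℂ)).Monic := ha.map _
  have hprod := hsplit.eq_prod_roots_of_monic ham
  have hev : (a.map (Int.castRingHom ℂ)).eval (z0 : ℂ) = ((a.eval z0 : ℤ) : ℂ) := by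
    rw [eval_map]
    have h := Polynomial.eval₂_at_apply (Int.castRingHom ℂ) z0 (p := a)
    exact h
  have hnorm : ‖(a.map (Int.castRingHom ℂ)).eval (z0 : ℂ)‖ = 1 := by
    rw [hev, Complex.norm_intCast]
    exact_mod_cast h1
  rw [hprod, eval_multiset_prod, Multiset.map_map] at hnorm
  have hcard : Multiset.card (a.map (Int.castRingHom ℂ)).roots ≠ 0 := by
    rw [← hsplit.natDegree_eq_card_roots, ha.natDegree_map]
    exact had
  have key : ∀ s : Multiset ℂ, Multiset.card s ≠ 0 → (∀ z ∈ s, 1 < ‖(z0 : ℂ) - z‖) →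
      1 < ‖(Multiset.map ((fun p => eval (z0 : ℂ) p) ∘ fun a => X - C a) s).prod‖ := by
    intro s
    induction s using Multiset.induction_on with
    | empty => intro h; exact absurd Multiset.card_zero h
    | cons z s ih =>
      intro _ h
      rw [Multiset.map_cons, Multiset.prod_cons, norm_mul]
      have hz : 1 < ‖(z0 : ℂ) - z‖ := h z (Multiset.mem_cons_self _ _)
      have e : ((fun p => eval (z0 : ℂ) p) ∘ fun a => X - C a) z = (z0 : ℂ) - z := by simp
      rw [e]
      by_cases hs : Multiset.card s = 0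
      · rw [Multiset.card_eq_zero] at hs
        subst hs
        simpa using hz
      · have := ih hs (fun w hw => h w (Multiset.mem_cons_of_mem hw))
        nlinarith
  have := key _ hcard hcon
  linarith

theorem irreducible_of_sign_changes (g : ℤ[X]) (hgm : g.Monic) (hg1 : g.natDegree ≠ 0) (x : ℕ → ℤ)
    (hx : ∀ k < g.natDegree, x k < x (k+1))
    (hs : ∀ k < g.natDegree, g.eval (x k) * g.eval (x (k+1)) < 0) (z0 : ℤ) (hz0 : g.eval z0 = -1)
    (j : ℕ) (hj : j < g.natDegree) (hj1 : x j ≤ z0 - 1) (hj2 : z0 + 1 ≤ x (j + 1)) :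
    Irreducible g := by
  obtain ⟨r, hr, hnd, hall⟩ := roots_structure g hgm.ne_zero x hx hs
  have hne1 : g ≠ 1 := by rintro rfl; exact hg1 natDegree_one
  rw [irreducible_of_monic hgm hne1]
  intro a b ha hb hab
  by_contra hcon
  push Not at hcon
  have hda : a.natDegree ≠ 0 := fun h => hcon.1 (ha.natDegree_eq_zero.mp h)
  have hdb : b.natDegree ≠ 0 := fun h => hcon.2 (hb.natDegree_eq_zero.mp h)
  have hprod : a.eval z0 * b.eval z0 = -1 := by rw [← eval_mul, hab, hz0]
  have hab1 : |a.eval z0| = 1 ∧ |b.eval z0| = 1 := by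
    have h1 : a.eval z0 * (-b.eval z0) = 1 := by linarith
    have h2 : b.eval z0 * (-a.eval z0) = 1 := by linarith
    constructor
    · rcases Int.isUnit_iff.mp (IsUnit.of_mul_eq_one _ h1) with h | h <;> rw [h] <;> norm_num
    · rcases Int.isUnit_iff.mp (IsUnit.of_mul_eq_one _ h2) with h | h <;> rw [h] <;> norm_num
  obtain ⟨za, hza, hza1⟩ := exists_close_root a ha hda z0 hab1.1
  obtain ⟨zb, hzb, hzb1⟩ := exists_close_root b hb hdb z0 hab1.2
  have hmap : (g.map (Int.castRingHom ℂ)).roots =
      (a.map (Int.castRingHom ℂ)).roots + (b.map (Int.castRingHom ℂ)).roots := by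
    rw [← hab, Polynomial.map_mul, Polynomial.roots_mul]
    exact mul_ne_zero (ha.map _).ne_zero (hb.map _).ne_zero
  -- the only root in the interval
  have honly : ∀ z ∈ (g.map (Int.castRingHom ℂ)).roots, ‖(z0 : ℂ) - z‖ ≤ 1 →
      z = ((r ⟨j, hj⟩ : ℝ) : ℂ) := by
    intro z hz hz1
    obtain ⟨k, rfl⟩ := hall z hz
    have h1 : |(z0 : ℝ) - r k| ≤ 1 := by
      have : ‖((z0 : ℝ) : ℂ) - (r k : ℂ)‖ ≤ 1 := by exact_mod_cast hz1
      rw [← Complex.ofReal_sub, Complex.norm_real] at this
      exact this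
    rw [abs_le] at h1
    have hmono : ∀ i j : ℕ, i ≤ j → j ≤ g.natDegree → x i ≤ x j := by
      intro i j hij
      induction j, hij using Nat.le_induction with
      | base => intro _; exact le_rfl
      | succ m hm ih => intro h; exact (ih (by omega)).trans (hx m (by omega)).le
    have hk := hr k
    have e1 : (x j : ℝ) ≤ z0 - 1 := by exact_mod_cast hj1
    have e2 : (z0 : ℝ) + 1 ≤ x (j + 1) := by exact_mod_cast hj2
    have hkj : (k : ℕ) = j := by
      rcases lt_trichotomy (k : ℕ) j with h | h | h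
      · exfalso
        have := hmono (k + 1) j h hj.le
        have e3 : (x (k + 1) : ℝ) ≤ x j := by exact_mod_cast this
        linarith [hk.2]
      · exact h
      · exfalso
        have := hmono (j + 1) k h k.2.le
        have e3 : (x (j + 1) : ℝ) ≤ x k := by exact_mod_cast this
        linarith [hk.1]
    have : k = ⟨j, hj⟩ := Fin.ext hkj
    rw [this]
  have ha' := honly za (by rw [hmap]; exact Multiset.mem_add.mpr (Or.inl hza)) hza1
  have hb' := honly zb (by rw [hmap]; exact Multiset.mem_add.mpr (Or.inr hzb)) hzb1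
  rw [hmap, Multiset.nodup_add] at hnd
  have hdisj := hnd.2.2
  rw [Multiset.disjoint_left] at hdisj
  apply hdisj hza
  rw [ha', ← hb']
  exact hzb

end H39E2
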