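import Mathlib

open Polynomial

namespace H39E2

/-- the product of the linear forms that will be units -/
noncomputable def PP (c : ℕ → ℤ) (k : ℕ) : ℤ[X] :=
  ∏ i ∈ Finset.range k, ((X - C (c i)) * (X - C (c i) + C 432))

theorem PP_eval (c : ℕ → ℤ) (k : ℕ) (x : ℤ) :
    (PP c k).eval x = ∏ i ∈ Finset.range k, ((x - c i) * (x - c i + 432)) := by
  unfold PP
  rw [eval_prod]
  simp only [eval_mul, eval_add, eval_sub, eval_X, eval_C]

theorem PP_monic (c : ℕ → ℤ) (k : ℕ) : (PP c k).Monic := by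
  unfold PP
  refine monic_prod_of_monic _ _ (fun i _ => (monic_X_sub_C _).mul ?_)
  have : (X - C (c i) + C 432 : ℤ[X]) = X - C (c i - 432) := by rw [C_sub]; ring
  rw [this]; exact monic_X_sub_C _

theorem PP_natDegree (c : ℕ → ℤ) (k : ℕ) : (PP c k).natDegree = 2 * k := by
  unfold PP
  have e : ∀ i : ℕ, (X - C (c i) + C 432 : ℤ[X]) = X - C (c i - 432) := by
    intro i; rw [C_sub]; ring
  rw [natDegree_prod_of_monic _ _ (fun i _ => (monic_X_sub_C _).mul (by rw [e]; exact monic_X_sub_C _))]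
  rw [Finset.sum_congr rfl (fun i _ => by
    rw [e, (monic_X_sub_C _).natDegree_mul (monic_X_sub_C _), natDegree_X_sub_C, natDegree_X_sub_C] :
    ∀ i ∈ Finset.range k, ((X - C (c i)) * (X - C (c i) + C 432) : ℤ[X]).natDegree = 1 + 1)]
  rw [Finset.sum_const, Finset.card_range, smul_eq_mul]
  ring

/-- product of integers `≥ 1` is `≥ 1` -/
theorem one_le_prod_int {ι : Type*} (s : Finset ι) (f : ι → ℤ) (h : ∀ i ∈ s, 1 ≤ f i) :
    1 ≤ ∏ i ∈ s, f i := by
  classical
  induction s using Finset.induction_on with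
  | empty => simp
  | insert a s ha ih =>
    rw [Finset.prod_insert ha]
    have h1 := h a (Finset.mem_insert_self _ _)
    have h2 := ih (fun i hi => h i (Finset.mem_insert_of_mem hi))
    nlinarith

theorem gap_mono (c : ℕ → ℤ) (k : ℕ) (hc : ∀ i, i + 1 < k → c i + 434 ≤ c (i + 1)) (i j : ℕ)
    (hij : i < j) (hj : j < k) : c i + 434 ≤ c j := by
  induction j, hij using Nat.le_induction with
  | base => exact hc i hj
  | succ j hij ih =>
    have := ih (by omega)
    have h2 := hc j hj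
    linarith

theorem eval_pos_at (c : ℕ → ℤ) (k : ℕ) (hc : ∀ i, i + 1 < k → c i + 434 ≤ c (i + 1)) (l : ℕ)
    (hl : l < k) : 2 ≤ (PP c k).eval (c l - 433) := by
  rw [PP_eval, ← Finset.mul_prod_erase _ _ (Finset.mem_range.mpr hl)]
  have h1 : 1 ≤ ∏ i ∈ (Finset.range k).erase l, ((c l - 433 - c i) * (c l - 433 - c i + 432)) := by
    apply one_le_prod_int
    intro i hi
    rw [Finset.mem_erase, Finset.mem_range] at hi
    rcases lt_trichotomy i l with h | h | h
    · have := gap_mono c k hc i l h hl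
      nlinarith
    · exact absurd h hi.1
    · have := gap_mono c k hc l i h hi.2
      nlinarith
  have e : (c l - 433 - c l) * (c l - 433 - c l + 432) = 433 := by ring
  rw [e]
  linarith

theorem eval_neg_at (c : ℕ → ℤ) (k : ℕ) (hc : ∀ i, i + 1 < k → c i + 434 ≤ c (i + 1)) (l : ℕ)
    (hl : l < k) : (PP c k).eval (c l - 1) ≤ -2 := by
  rw [PP_eval, ← Finset.mul_prod_erase _ _ (Finset.mem_range.mpr hl)]
  have h1 : 1 ≤ ∏ i ∈ (Finset.range k).erase l, ((c l - 1 - c i) * (c l - 1 - c i + 432)) := by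
    apply one_le_prod_int
    intro i hi
    rw [Finset.mem_erase, Finset.mem_range] at hi
    rcases lt_trichotomy i l with h | h | h
    · have := gap_mono c k hc i l h hl
      nlinarith
    · exact absurd h hi.1
    · have := gap_mono c k hc l i h hi.2
      nlinarith
  have e : (c l - 1 - c l) * (c l - 1 - c l + 432) = -431 := by ring
  rw [e]
  linarith

theorem eval_pos_right (c : ℕ → ℤ) (k : ℕ) (hk : 0 < k) (hc0 : ∀ i < k, c i ≤ 0) (x : ℤ)
    (hx : 1 ≤ x) : 2 ≤ (PP c k).eval x := by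
  rw [PP_eval, ← Finset.mul_prod_erase _ _ (Finset.mem_range.mpr hk)]
  have h1 : 1 ≤ ∏ i ∈ (Finset.range k).erase 0, ((x - c i) * (x - c i + 432)) := by
    apply one_le_prod_int
    intro i hi
    rw [Finset.mem_erase, Finset.mem_range] at hi
    have := hc0 i hi.2
    nlinarith
  have h0 := hc0 0 hk
  have e : 433 ≤ (x - c 0) * (x - c 0 + 432) := by nlinarith
  nlinarith

/-- sample points -/
def pts (c : ℕ → ℤ) (k : ℕ) (L : ℤ) (i : ℕ) : ℤ :=
  if i < 2 * k then (if i % 2 = 0 then c (i / 2) - 433 else c (i / 2) - 1)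
  else L * (2 * ((i - 2 * k : ℕ) : ℤ) + 1)

theorem pts_even (c : ℕ → ℤ) (k : ℕ) (L : ℤ) (l : ℕ) (hl : l < k) :
    pts c k L (2 * l) = c l - 433 := by
  unfold pts
  rw [if_pos (by omega), if_pos (by omega), show 2 * l / 2 = l by omega]

theorem pts_odd (c : ℕ → ℤ) (k : ℕ) (L : ℤ) (l : ℕ) (hl : l < k) :
    pts c k L (2 * l + 1) = c l - 1 := by
  unfold pts
  rw [if_pos (by omega), if_neg (by omega), show (2 * l + 1) / 2 = l by omega]

theorem pts_right (c : ℕ → ℤ) (k : ℕ) (L : ℤ) (j : ℕ) :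
    pts c k L (2 * k + j) = L * (2 * (j : ℤ) + 1) := by
  unfold pts
  rw [if_neg (by omega), show 2 * k + j - 2 * k = j by omega]

theorem cases_index (k : ℕ) (i : ℕ) : (∃ l < k, i = 2 * l) ∨ (∃ l < k, i = 2 * l + 1) ∨
    ∃ j, i = 2 * k + j := by
  by_cases h : i < 2 * k
  · rcases Nat.even_or_odd' i with ⟨l, rfl | rfl⟩
    · left; exact ⟨l, by omega, rfl⟩
    · right; left; exact ⟨l, by omega, rfl⟩
  · right; right; exact ⟨i - 2 * k, by omega⟩

theorem signs (c : ℕ → ℤ) (k m : ℕ) (hk : 0 < k) (hc : ∀ i, i + 1 < k → c i + 434 ≤ c (i + 1))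
    (hc0 : ∀ i < k, c i ≤ 0) (h : ℤ[X]) (L : ℤ) (hL : 1 ≤ L) (C0 : ℤ) (hC0 : 433 - c 0 ≤ C0)
    (hs1 : ∀ x : ℤ, -C0 ≤ x → x ≤ 0 → 1 ≤ (-1) ^ m * h.eval x)
    (hs3 : ∀ j : ℕ, j ≤ m → 1 ≤ (-1) ^ (m - j) * h.eval (L * (2 * (j : ℤ) + 1))) :
    (∀ i < 2 * k + m, pts c k L i < pts c k L (i + 1)) ∧
    (∀ i < 2 * k + m, (PP c k * h - 1).eval (pts c k L i) *
      (PP c k * h - 1).eval (pts c k L (i + 1)) < 0) := by
  have hev : ∀ x : ℤ, (PP c k * h - 1).eval x = (PP c k).eval x * h.eval x - 1 := by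
    intro x
    simp only [eval_sub, eval_mul, eval_one]
  have hpow : ∀ r : ℕ, (-1 : ℤ) ^ r = 1 ∨ (-1 : ℤ) ^ r = -1 := neg_one_pow_eq_or ℤ
  have hc1 : ∀ l < k, c 0 ≤ c l := by
    intro l hl
    rcases Nat.eq_zero_or_pos l with rfl | hl0
    · exact le_rfl
    · have := gap_mono c k hc 0 l hl0 hl; linarith
  have key : ∀ i ≤ 2 * k + m, 0 < (-1) ^ (2 * k + m - i) * (PP c k * h - 1).eval (pts c k L i) := by
    intro i hi
    rw [hev]
    rcases cases_index k i with ⟨l, hl, rfl⟩ | ⟨l, hl, rfl⟩ | ⟨j, rfl⟩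
    · rw [pts_even c k L l hl]
      have e : (-1 : ℤ) ^ (2 * k + m - 2 * l) = (-1) ^ m := by
        rw [show 2 * k + m - 2 * l = 2 * (k - l) + m by omega, pow_add, pow_mul]; norm_num
      rw [e]
      have h1 := eval_pos_at c k hc l hl
      have h2 := hs1 (c l - 433) (by have := hc1 l hl; linarith) (by have := hc0 l hl; linarith)
      generalize (PP c k).eval (c l - 433) = p at *
      generalize h.eval (c l - 433) = q at *
      rcases hpow m with h3 | h3 <;> rw [h3] at h2 ⊢ <;> nlinarith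
    · rw [pts_odd c k L l hl]
      have e : (-1 : ℤ) ^ (2 * k + m - (2 * l + 1)) = -(-1) ^ m := by
        rw [show 2 * k + m - (2 * l + 1) = 2 * (k - l - 1) + (m + 1) by omega, pow_add, pow_mul,
          show ((-1 : ℤ) ^ 2) = 1 by norm_num, one_pow, one_mul, pow_succ]
        ring
      rw [e]
      have h1 := eval_neg_at c k hc l hl
      have h2 := hs1 (c l - 1) (by have := hc1 l hl; linarith) (by have := hc0 l hl; linarith)
      generalize (PP c k).eval (c l - 1) = p at *
      generalize h.eval (c l - 1) = q at *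
      rcases hpow m with h3 | h3 <;> rw [h3] at h2 ⊢ <;> nlinarith
    · rw [pts_right]
      have hj' : j ≤ m := by omega
      have h3 := hs3 j hj'
      rw [show 2 * k + m - (2 * k + j) = m - j by omega]
      have hx : 1 ≤ L * (2 * (j : ℤ) + 1) := by
        have : (0:ℤ) ≤ j := by positivity
        nlinarith
      have h1 := eval_pos_right c k hk hc0 _ hx
      generalize (PP c k).eval (L * (2 * (j : ℤ) + 1)) = p at *
      generalize h.eval (L * (2 * (j : ℤ) + 1)) = q at *
      rcases hpow (m - j) with h4 | h4 <;> rw [h4] at h3 ⊢ <;> nlinarith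
  constructor
  · intro i hi
    rcases cases_index k i with ⟨l, hl, rfl⟩ | ⟨l, hl, rfl⟩ | ⟨j, rfl⟩
    · rw [pts_even c k L l hl, pts_odd c k L l hl]; linarith
    · rw [pts_odd c k L l hl]
      by_cases hl2 : l + 1 < k
      · rw [show 2 * l + 1 + 1 = 2 * (l + 1) by ring, pts_even c k L (l + 1) hl2]
        have := hc l hl2
        linarith
      · rw [show 2 * l + 1 + 1 = 2 * k + 0 by omega, pts_right]
        have := hc0 l hl
        push_cast
        linarith
    · rw [show 2 * k + j + 1 = 2 * k + (j + 1) by ring, pts_right, pts_right]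
      push_cast
      nlinarith
  · intro i hi
    have h1 := key i (by omega)
    have h2 := key (i + 1) (by omega)
    have e : 2 * k + m - i = (2 * k + m - (i + 1)) + 1 := by omega
    rw [e, pow_succ] at h1
    rcases hpow (2 * k + m - (i + 1)) with h3 | h3 <;> rw [h3] at h1 h2 <;> nlinarith

end H39E2
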