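import Pool.Agent.H39.E2.Range
import Pool.Agent.H39.E2.Signs
import Pool.Agent.H39.E2.Family
import Pool.Agent.H39.E2.Roots

open Polynomial

namespace H39E2

open H39E1

theorem exists_poly (k K r n B : ℕ) (hk : 0 < k) (hr : r.Prime) (h1 : n < 2 * r)
    (h2 : r + 2 * k + 1 ≤ n) (q : ℕ → ℕ) (α c : ℕ → ℤ) (hqp : ∀ i, (q i).Prime)
    (hq7 : ∀ i, 7 < q i) (hqi : Function.Injective q)
    (hPq : ∀ i < K, ¬ (q i : ℤ) ∣ (PP c k).eval (α i))
    (hP3 : ¬ (7 : ℤ) ∣ (PP c k).eval 3) (hP5 : ¬ (7 : ℤ) ∣ (PP c k).eval 5)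
    (hc0 : ∀ i < k, c i ≤ 0) (hc : ∀ i, i + 1 < k → c i + 434 ≤ c (i + 1)) :
    ∃ (p : ℕ) (h g : ℤ[X]), p.Prime ∧ B < p ∧ g = PP c k * h - 1 ∧ g.Monic ∧ g.natDegree = n ∧
      Irreducible g ∧ (∀ z : ℂ, aeval z g = 0 → z.im = 0) ∧
      ((7 : ℤ) ∣ g.eval 3 ∧ ¬ (7 : ℤ) ∣ g.derivative.eval 3) ∧
      ((7 : ℤ) ∣ g.eval 5 ∧ ¬ (7 : ℤ) ∣ g.derivative.eval 5) ∧
      (∀ i < K, (q i : ℤ) ∣ g.eval (α i) ∧ ¬ (q i : ℤ) ∣ g.derivative.eval (α i)) ∧
      ∃ S U : ℤ[X], g = (X - 1) ^ r * S + C (p : ℤ) * U ∧ ¬ (p : ℤ) ∣ S.eval 1 ∧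
        ¬ (p : ℤ) ∣ U.eval 1 := by
  set m := n - 2 * k with hm
  have hm4 : 4 ≤ m := by omega
  have hP1 : 2 ≤ (PP c k).eval 1 := eval_pos_right c k hk hc0 1 le_rfl
  -- the prime `p`
  obtain ⟨p, hpge, hp⟩ := Nat.exists_infinite_primes
    (B + ((PP c k).eval 1).toNat + (∑ i ∈ Finset.range K, q i) + 8)
  have hpB : B < p := by omega
  have hp7 : 7 < p := by omega
  have hpP : ¬ (p : ℤ) ∣ (PP c k).eval 1 := by
    intro h
    have := Int.le_of_dvd (by linarith) h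
    have h3 : ((PP c k).eval 1).toNat < p := by omega
    have h4 : (((PP c k).eval 1).toNat : ℤ) = (PP c k).eval 1 := Int.toNat_of_nonneg (by linarith)
    omega
  have hpq : ∀ i < K, q i < p := by
    intro i hi
    have := Finset.single_le_sum (f := q) (fun _ _ => Nat.zero_le _) (Finset.mem_range.mpr hi)
    omega
  -- local polynomials
  have hlocq : ∀ i, i < K → ∃ H : ℤ[X], H.Monic ∧ H.natDegree = m ∧ ∀ h : ℤ[X], C (q i : ℤ) ∣ h - H →
      (q i : ℤ) ∣ (PP c k * h - 1).eval (α i) ∧ ¬ (q i : ℤ) ∣ (PP c k * h - 1).derivative.eval (α i) :=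
    fun i hi => local_one m (by omega) (q i) (hqp i) (PP c k) (α i) (hPq i hi)
  have hlocq' : ∀ i, ∃ H : ℤ[X], i < K → (H.Monic ∧ H.natDegree = m ∧ ∀ h : ℤ[X], C (q i : ℤ) ∣ h - H →
      (q i : ℤ) ∣ (PP c k * h - 1).eval (α i) ∧ ¬ (q i : ℤ) ∣ (PP c k * h - 1).derivative.eval (α i)) := by
    intro i
    by_cases hi : i < K
    · obtain ⟨H, hH⟩ := hlocq i hi
      exact ⟨H, fun _ => hH⟩
    · exact ⟨0, fun h => absurd h hi⟩
  choose Hq hHq using hlocq'
  obtain ⟨H7, h7m, h7d, h7⟩ := local_seven m hm4 (PP c k) hP3 hP5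
  obtain ⟨Hp, hpm, hpd, hpl⟩ := local_p p hp (PP c k) (PP_monic c k) (2 * k) r (n - r) m
    (PP_natDegree c k) (by omega) hr.one_lt.le (by omega) hpP
  -- combine
  have hcopq : ∀ i j, i ≠ j → IsCoprime (q i : ℤ) (q j : ℤ) := by
    intro i j hij
    rw [Nat.isCoprime_iff_coprime]
    exact (Nat.coprime_primes (hqp i) (hqp j)).mpr (fun h => hij (hqi h))
  obtain ⟨H1, h1m, h1d, h1q⟩ := crt_family m (Finset.range K) (fun i => (q i : ℤ)) Hq
    (fun i _ j _ hij => hcopq i j hij) (fun i hi => by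
      have := hHq i (Finset.mem_range.mp hi)
      exact ⟨this.1, this.2.1⟩)
  have hN : ∀ i ∈ Finset.range K, C (q i : ℤ) ∣ C (∏ i ∈ Finset.range K, (q i : ℤ)) := by
    intro i hi
    obtain ⟨t, ht⟩ := Finset.dvd_prod_of_mem (fun i => (q i : ℤ)) hi
    rw [ht, C_mul]; exact dvd_mul_right _ _
  have hcop7 : IsCoprime (∏ i ∈ Finset.range K, (q i : ℤ)) 7 := by
    apply IsCoprime.prod_left
    intro i _
    have : IsCoprime ((q i : ℕ) : ℤ) ((7 : ℕ) : ℤ) := by
      rw [Nat.isCoprime_iff_coprime]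
      exact (Nat.coprime_primes (hqp i) (by norm_num)).mpr (by have := hq7 i; omega)
    exact_mod_cast this
  obtain ⟨H2, h2m, h2d, h2a, h2b⟩ := crt_monic m _ 7 hcop7 H1 H7 h1m h7m h1d h7d
  have hcopp : IsCoprime ((∏ i ∈ Finset.range K, (q i : ℤ)) * 7) ((p : ℤ) ^ 2) := by
    apply IsCoprime.pow_right
    apply IsCoprime.mul_left
    · apply IsCoprime.prod_left
      intro i hi
      rw [Nat.isCoprime_iff_coprime]
      exact (Nat.coprime_primes (hqp i) hp).mpr (by have := hpq i (Finset.mem_range.mp hi); omega)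
    · have : IsCoprime ((7 : ℕ) : ℤ) ((p : ℕ) : ℤ) := by
        rw [Nat.isCoprime_iff_coprime]
        exact (Nat.coprime_primes (by norm_num) hp).mpr (by omega)
      exact_mod_cast this
  obtain ⟨H3, h3m, h3d, h3a, h3b⟩ := crt_monic m _ _ hcopp H2 Hp h2m hpm h2d hpd
  have hNpos : 0 < (∏ i ∈ Finset.range K, (q i : ℤ)) * 7 * (p : ℤ) ^ 2 := by
    have h3 : 0 < ∏ i ∈ Finset.range K, (q i : ℤ) := Finset.prod_pos fun j _ => by
      exact_mod_cast (hqp j).pos
    have h4 : (0 : ℤ) < p := by exact_mod_cast hp.pos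
    positivity
  obtain ⟨h, hhm, hhd, hhN, L, hL, hs1, hs3⟩ := exists_h_range m (by omega) _ hNpos H3 h3m h3d
    (433 - c 0) (by have := hc0 0 hk; linarith)
  have d3 : C ((∏ i ∈ Finset.range K, (q i : ℤ)) * 7) ∣ h - H3 := by
    rw [C_mul] at hhN
    exact (dvd_mul_right _ _).trans hhN
  have dp : C ((p : ℤ) ^ 2) ∣ h - Hp := by
    have : C ((p : ℤ) ^ 2) ∣ h - H3 := by
      rw [C_mul] at hhN
      exact (dvd_mul_left _ _).trans hhN
    have := dvd_add this h3b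
    rwa [sub_add_sub_cancel] at this
  have d2 : C ((∏ i ∈ Finset.range K, (q i : ℤ)) * 7) ∣ h - H2 := by
    have := dvd_add d3 h3a
    rwa [sub_add_sub_cancel] at this
  have d7 : C (7 : ℤ) ∣ h - H7 := by
    have : C (7 : ℤ) ∣ h - H2 := by
      rw [C_mul] at d2
      exact (dvd_mul_left _ _).trans d2
    have := dvd_add this h2b
    rwa [sub_add_sub_cancel] at this
  have dq : ∀ i < K, C (q i : ℤ) ∣ h - Hq i := by
    intro i hi
    have e1 : C (∏ i ∈ Finset.range K, (q i : ℤ)) ∣ h - H2 := by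
      rw [C_mul] at d2
      exact (dvd_mul_right _ _).trans d2
    have e2 := dvd_add e1 h2a
    rw [sub_add_sub_cancel] at e2
    have e3 := dvd_add ((hN i (Finset.mem_range.mpr hi)).trans e2) (h1q i (Finset.mem_range.mpr hi))
    rwa [sub_add_sub_cancel] at e3
  obtain ⟨hx, hs⟩ := signs c k m hk hc hc0 h L hL (433 - c 0) le_rfl hs1 hs3
  -- monic, degree
  have hA : (PP c k * h).Monic := (PP_monic c k).mul hhm
  have hAd : (PP c k * h).natDegree = n := by
    rw [(PP_monic c k).natDegree_mul hhm, PP_natDegree, hhd]; omega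
  have hlt : (-1 : ℤ[X]).degree < (PP c k * h).degree := by
    rw [degree_neg, degree_one, degree_eq_natDegree hA.ne_zero, hAd]
    exact_mod_cast (by omega : 0 < n)
  have hgm : (PP c k * h - 1).Monic := by
    rw [sub_eq_add_neg]; exact hA.add_of_left hlt
  have hgd : (PP c k * h - 1).natDegree = n := by
    rw [sub_eq_add_neg, natDegree_add_eq_left_of_degree_lt hlt, hAd]
  have hn2 : 2 * k + m = n := by omega
  have hx' : ∀ i < (PP c k * h - 1).natDegree, pts c k L i < pts c k L (i + 1) := by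
    rw [hgd, ← hn2]; exact hx
  have hs' : ∀ i < (PP c k * h - 1).natDegree, (PP c k * h - 1).eval (pts c k L i) *
      (PP c k * h - 1).eval (pts c k L (i + 1)) < 0 := by
    rw [hgd, ← hn2]; exact hs
  -- irreducibility: the root near `c (k-1)`
  have hgc : (PP c k * h - 1).eval (c (k - 1)) = -1 := by
    rw [eval_sub, eval_mul, eval_one, PP_eval]
    rw [Finset.prod_eq_zero (Finset.mem_range.mpr (by omega : k - 1 < k))]
    · ring
    · ring
  have hirr : Irreducible (PP c k * h - 1) := by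
    refine irreducible_of_sign_changes _ hgm (by omega) (pts c k L) hx' hs' (c (k - 1)) hgc
      (2 * (k - 1) + 1) (by omega) ?_ ?_
    · rw [pts_odd c k L (k - 1) (by omega)]
    · rw [show 2 * (k - 1) + 1 + 1 = 2 * k + 0 by omega, pts_right]
      have := hc0 (k - 1) (by omega)
      push_cast
      linarith
  refine ⟨p, h, PP c k * h - 1, hp, hpB, rfl, hgm, hgd, hirr, ?_, (h7 h d7).1, (h7 h d7).2, ?_,
    hpl h dp⟩
  · intro z hz
    obtain ⟨rr, -, -, hall⟩ := roots_structure (PP c k * h - 1) hgm.ne_zero (pts c k L) hx' hs'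
    obtain ⟨i, hi⟩ := hall z (by
      rw [Polynomial.mem_roots (hgm.map _).ne_zero, IsRoot.def, Polynomial.eval_map,
        ← algebraMap_int_eq, ← Polynomial.aeval_def]
      exact hz)
    rw [hi]
    exact Complex.ofReal_im _
  · intro i hi
    exact (hHq i hi).2.2 h (dq i hi)

end H39E2
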