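import Pool.Agent.H39.E1.Ramified

open NumberField Ideal Polynomial

namespace H39E2

set_option linter.unusedSectionVars false

variable {F : Type} [Field F] [NumberField F]

theorem ramificationIdx_le (p : ℤ) (hp : Prime p) (Q : Ideal (𝓞 F)) [Q.IsPrime]
    [Q.LiesOver (span {p})] : Q.ramificationIdx ℤ ≤ Module.finrank ℚ F := by
  have hpp : (span {p} : Ideal ℤ).IsPrime := (span_singleton_prime hp.ne_zero).mpr hp
  have hmax : (span {p} : Ideal ℤ).IsMaximal :=
    hpp.isMaximal (by simpa using hp.ne_zero)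
  have hfin : Finite ((span {p} : Ideal ℤ).primesOver (𝓞 F)) := by
    infer_instance
  let _ : Fintype ((span {p} : Ideal ℤ).primesOver (𝓞 F)) := Fintype.ofFinite _
  have hsum := sum_ramification_inertia_eq_finrank (span {p}) (𝓞 F)
  rw [NumberField.RingOfIntegers.rank] at hsum
  let Q' : (span {p} : Ideal ℤ).primesOver (𝓞 F) := ⟨Q, ‹_›, ‹_›⟩
  have h1 := Finset.single_le_sum (f := fun q : (span {p} : Ideal ℤ).primesOver (𝓞 F) =>
    q.1.ramificationIdx ℤ * q.1.inertiaDeg ℤ) (fun _ _ => Nat.zero_le _) (Finset.mem_univ Q')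
  rw [hsum] at h1
  have h2 : Q.ramificationIdx ℤ * Q.inertiaDeg ℤ ≤ Module.finrank ℚ F := h1
  exact (Nat.le_mul_of_pos_right _ (inertiaDeg_pos Q ℤ)).trans h2

theorem ramificationIdx_le_rel (K : IntermediateField ℚ F) (P0 : Ideal (𝓞 K)) [P0.IsPrime]
    (Q : Ideal (𝓞 F)) [Q.IsPrime] [Q.LiesOver P0] :
    Q.ramificationIdx (𝓞 K) ≤ Module.finrank K F := by
  have hfin : Finite (P0.primesOver (𝓞 F)) :=
    (Algebra.QuasiFinite.finite_primesOver (R := 𝓞 K) (S := 𝓞 F) P0).to_subtype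
  let _ : Fintype (P0.primesOver (𝓞 F)) := Fintype.ofFinite _
  have hsum := sum_ramification_inertia_eq_finrank P0 (𝓞 F)
  let Q' : P0.primesOver (𝓞 F) := ⟨Q, ‹_›, ‹_›⟩
  have h1 := Finset.single_le_sum (f := fun q : P0.primesOver (𝓞 F) =>
    q.1.ramificationIdx (𝓞 K) * q.1.inertiaDeg (𝓞 K)) (fun _ _ => Nat.zero_le _) (Finset.mem_univ Q')
  rw [hsum] at h1
  have h2 : Q.ramificationIdx (𝓞 K) * Q.inertiaDeg (𝓞 K) ≤ Module.finrank K F := by
    rw [IsFractionRing.finrank_eq (𝓞 K) K (𝓞 F) F]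
    exact h1
  exact (Nat.le_mul_of_pos_right _ (inertiaDeg_pos Q (𝓞 K))).trans h2

/-- A prime of ramification index `r`, with `r` a prime number larger than half the degree,
excludes intermediate fields. -/
theorem no_intermediate_of_ramification (p : ℤ) (hp : Prime p) (Q : Ideal (𝓞 F)) [Q.IsPrime]
    [Q.LiesOver (span {p})] (r : ℕ) (hr : r.Prime) (hn : Module.finrank ℚ F < 2 * r)
    (he : Q.ramificationIdx ℤ = r) (K : IntermediateField ℚ F) : K = ⊥ ∨ K = ⊤ := by
  set P0 : Ideal (𝓞 K) := Q.under (𝓞 K) with hP0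
  have hP0p : P0.IsPrime := inferInstance
  have hPP0 : Q.LiesOver P0 := inferInstance
  have hP0b : P0.LiesOver (span {p}) := LiesOver.tower_bot Q P0 (span {p})
  have htow : Q.ramificationIdx ℤ = P0.ramificationIdx ℤ * Q.ramificationIdx (𝓞 K) :=
    ramificationIdx_tower P0 Q
  have h1 : P0.ramificationIdx ℤ ≤ Module.finrank ℚ K := ramificationIdx_le p hp P0
  have h2 : Q.ramificationIdx (𝓞 K) ≤ Module.finrank K F := ramificationIdx_le_rel K P0 Q
  have h3 : Module.finrank ℚ K * Module.finrank K F = Module.finrank ℚ F :=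
    Module.finrank_mul_finrank ℚ K F
  have hpos1 : 0 < Module.finrank ℚ K := Module.finrank_pos
  have hpos2 : 0 < Module.finrank K F := Module.finrank_pos
  rw [he] at htow
  have hdvd : P0.ramificationIdx ℤ ∣ r := ⟨_, htow⟩
  rcases (Nat.dvd_prime hr).mp hdvd with h | h
  · -- `e(Q / P0) = r`
    left
    rw [h, one_mul] at htow
    have h4 : r ≤ Module.finrank K F := htow.le.trans h2
    have h5 : Module.finrank ℚ K = 1 := by
      by_contra hne
      have h6 : 2 ≤ Module.finrank ℚ K := by omega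
      have h7 : 2 * r ≤ Module.finrank ℚ K * Module.finrank K F := Nat.mul_le_mul h6 h4
      omega
    exact IntermediateField.finrank_eq_one_iff.mp h5
  · right
    have h4 : r ≤ Module.finrank ℚ K := h.symm.le.trans h1
    have h5 : Module.finrank K F = 1 := by
      by_contra hne
      have h6 : 2 ≤ Module.finrank K F := by omega
      have h7 : r * 2 ≤ Module.finrank ℚ K * Module.finrank K F := Nat.mul_le_mul h4 h6
      omega
    exact IntermediateField.finrank_eq_one_iff_eq_top.mp h5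

theorem intCast_notMem (p : ℕ) (hp : p.Prime) (Q : Ideal (𝓞 F)) [Q.IsPrime] (hpQ : (p : 𝓞 F) ∈ Q)
    (a : ℤ) (ha : ¬ (p : ℤ) ∣ a) : (a : 𝓞 F) ∉ Q := by
  intro h
  obtain ⟨x, y, hxy⟩ := (Prime.coprime_iff_not_dvd (Nat.prime_iff_prime_int.mp hp)).mpr ha
  apply IsPrime.ne_top ‹_›
  rw [Ideal.eq_top_iff_one]
  have : (1 : 𝓞 F) = (x : 𝓞 F) * (p : 𝓞 F) + (y : 𝓞 F) * (a : 𝓞 F) := by
    have := congrArg (Int.cast : ℤ → 𝓞 F) hxy
    push_cast at this
    exact this.symm
  rw [this]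
  exact Q.add_mem (Q.mul_mem_left _ hpQ) (Q.mul_mem_left _ h)

theorem aeval_notMem (p : ℕ) (hp : p.Prime) (w : 𝓞 F) (Q : Ideal (𝓞 F)) [Q.IsPrime]
    (hpQ : (p : 𝓞 F) ∈ Q) (hwQ : w - 1 ∈ Q) (S : ℤ[X]) (hS : ¬ (p : ℤ) ∣ S.eval 1) :
    aeval w S ∉ Q := by
  intro h
  have h0 : (X - C (1:ℤ)) ∣ S - C (S.eval 1) := X_sub_C_dvd_sub_C_eval
  obtain ⟨c, hc⟩ := h0
  have h1 : aeval w S = ((S.eval 1 : ℤ) : 𝓞 F) + (w - 1) * aeval w c := by
    have : S = C (S.eval 1) + (X - C 1) * c := by rw [← hc]; ring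
    conv_lhs => rw [this]
    simp
  apply intCast_notMem p hp Q hpQ (S.eval 1) hS
  have : ((S.eval 1 : ℤ) : 𝓞 F) = aeval w S - (w - 1) * aeval w c := by rw [h1]; ring
  rw [this]
  exact Q.sub_mem h (Q.mul_mem_right _ hwQ)

theorem ramification_exact (p : ℕ) (hp : p.Prime) (w : 𝓞 F) (Q : Ideal (𝓞 F)) [Q.IsPrime]
    (hpQ : (p : 𝓞 F) ∈ Q) (hwQ : w - 1 ∈ Q) (r : ℕ) (hr : 1 ≤ r)
    (hn : Module.finrank ℚ F < 2 * r) (S U : ℤ[X])
    (hg : aeval w ((X - 1) ^ r * S + C (p : ℤ) * U) = 0)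
    (hS : ¬ (p : ℤ) ∣ S.eval 1) (hU : ¬ (p : ℤ) ∣ U.eval 1) :
    Q.LiesOver (span {(p : ℤ)}) ∧ Q.ramificationIdx ℤ = r := by
  have hpi : Prime (p : ℤ) := Nat.prime_iff_prime_int.mp hp
  have hl : Q.LiesOver (span {(p : ℤ)}) :=
    (Ideal.liesOver_span_iff (IsPrime.ne_top ‹_›) hpi).mpr (by simpa using hpQ)
  refine ⟨hl, ?_⟩
  have hs := aeval_notMem p hp w Q hpQ hwQ S hS
  have hu := aeval_notMem p hp w Q hpQ hwQ U hU
  have hQ0 : Q ≠ ⊥ := by
    rintro rfl
    rw [Ideal.mem_bot] at hpQ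
    exact hp.ne_zero (by exact_mod_cast hpQ)
  have hQp : Prime Q := Ideal.prime_of_isPrime hQ0 inferInstance
  have hid : (w - 1) ^ r * aeval w S = -((p : 𝓞 F) * aeval w U) := by
    have h1 : aeval w ((X - 1) ^ r * S + C (p : ℤ) * U) =
      (w - 1) ^ r * aeval w S + (p : 𝓞 F) * aeval w U := by
      simp
    rw [h1] at hg
    linear_combination hg
  have hideal : (span {w - 1} : Ideal (𝓞 F)) ^ r * span {aeval w S} = span {(p : 𝓞 F)} * span {aeval w U} := by
    rw [Ideal.span_singleton_pow, Ideal.span_singleton_mul_span_singleton,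
      Ideal.span_singleton_mul_span_singleton, hid, Ideal.span_singleton_neg]
  have h0 : ∀ x : 𝓞 F, x ∉ Q → emultiplicity Q (span {x}) = 0 := by
    intro x hx
    rw [emultiplicity_eq_zero, Ideal.dvd_span_singleton]
    exact hx
  have hm := congrArg (emultiplicity Q) hideal
  rw [emultiplicity_mul hQp, emultiplicity_mul hQp, emultiplicity_pow hQp, h0 _ hs, h0 _ hu,
    add_zero, add_zero] at hm
  have hmap : (span {(p : ℤ)}).map (algebraMap ℤ (𝓞 F)) = span {(p : 𝓞 F)} := by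
    rw [Ideal.map_span, Set.image_singleton]
    simp
  have hne : (span {(p : ℤ)}).map (algebraMap ℤ (𝓞 F)) ≠ ⊥ := by
    rw [hmap, Ne, Ideal.span_singleton_eq_bot]
    exact_mod_cast hp.ne_zero
  have he := Ideal.IsDedekindDomain.ramificationIdx_eq_multiplicity (span {(p : ℤ)}) Q hne
  rw [hmap] at he hne
  have hfin : FiniteMultiplicity Q (span {(p : 𝓞 F)}) := by
    apply FiniteMultiplicity.of_not_isUnit
    · intro hu
      rw [Ideal.isUnit_iff] at hu
      exact IsPrime.ne_top ‹_› hu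
    · exact hne
  rw [hfin.emultiplicity_eq_multiplicity, ← he] at hm
  have hle := ramificationIdx_le (p : ℤ) hpi Q
  -- `a = emultiplicity Q (w - 1)` is finite and positive
  have ha1 : 1 ≤ emultiplicity Q (span {w - 1}) := by
    rw [Order.one_le_iff_pos, pos_iff_ne_zero, Ne, emultiplicity_eq_zero, not_not, Ideal.dvd_span_singleton]
    exact hwQ
  have hatop : emultiplicity Q (span {w - 1}) ≠ ⊤ := by
    intro h
    rw [h, ENat.mul_top (by exact_mod_cast (by omega : r ≠ 0))] at hm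
    exact absurd hm (ENat.natCast_ne_top _).symm
  obtain ⟨a, ha⟩ := ENat.ne_top_iff_exists.mp hatop
  rw [← ha] at hm ha1
  have hm' : r * a = Q.ramificationIdx ℤ := by exact_mod_cast hm
  have ha1' : 1 ≤ a := by exact_mod_cast ha1
  have ha2 : a = 1 := by
    by_contra hne
    have : 2 ≤ a := by omega
    have : r * 2 ≤ r * a := Nat.mul_le_mul_left r this
    omega
  rw [← hm', ha2, mul_one]

end H39E2
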