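import Pool.Agent.H39.E1.Over
import Pool.Agent.H39.E1.Hensel
import Pool.Agent.H39.E1.Field
import Pool.Agent.H39.E2.Choose
import Pool.Agent.H39.E2.GPoly
import Pool.Agent.H39.E2.Prim

open NumberField Ideal Polynomial

namespace H39E2

open H39E1

theorem isTotallyReal_of {F : Type} [Field F] [NumberField F] (w : 𝓞 F) (g : ℤ[X])
    (hwg : aeval w g = 0)
    (huniq : ∀ (K : Type) [Field K] (τ τ' : F →+* K), τ (w : F) = τ' (w : F) → τ = τ')
    (hreal : ∀ z : ℂ, aeval z g = 0 → z.im = 0) : IsTotallyReal F := by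
  constructor
  intro v
  rw [InfinitePlace.isReal_iff, ComplexEmbedding.isReal_iff]
  apply huniq
  have h0 : aeval (w : F) g = 0 := by
    have h1 := aeval_algebraMap_apply F w g
    rw [hwg, map_zero] at h1
    exact h1
  have hroot : aeval (v.embedding (w : F)) g = 0 := by
    have h2 := aeval_algHom_apply (v.embedding.toIntAlgHom) (w : F) g
    rw [h0, map_zero] at h2
    exact h2
  rw [ComplexEmbedding.conjugate_coe_eq]
  exact Complex.conj_eq_iff_im.mpr (hreal _ hroot)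

/-- the prime over `p` with ramification index `r` -/
theorem exists_ramified {F : Type} [Field F] [NumberField F] (w : 𝓞 F) (g : ℤ[X])
    (hwg : aeval w g = 0) (hwdvd : ∀ q : ℤ[X], aeval w q = 0 → g ∣ q)
    (p : ℕ) (hp : p.Prime) (r : ℕ) (hr : 2 ≤ r) (hn : Module.finrank ℚ F < 2 * r) (S U : ℤ[X])
    (hg : g = (X - 1) ^ r * S + C (p : ℤ) * U)
    (hS : ¬ (p : ℤ) ∣ S.eval 1) (hU : ¬ (p : ℤ) ∣ U.eval 1) :
    ∃ Q : Ideal (𝓞 F), Q.IsPrime ∧ Q.LiesOver (span {(p : ℤ)}) ∧ Q.ramificationIdx ℤ = r ∧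
      (p : ℤ) ∣ discr F := by
  have hppf : Fact (Nat.Prime p) := ⟨hp⟩
  let φ : ℤ[X] →+* ZMod p := (Int.castRingHom (ZMod p)).comp (evalRingHom (1 : ℤ))
  have hφ : ∀ q, φ q = ((q.eval 1 : ℤ) : ZMod p) := fun q => rfl
  have hg1 : g.eval 1 = p * U.eval 1 := by
    rw [hg]
    simp only [eval_add, eval_mul, eval_pow, eval_sub, eval_X, eval_one, eval_C, sub_self]
    rw [zero_pow (by omega)]
    ring
  obtain ⟨Q, hQp, hQ⟩ := exists_prime_of_hom w g hwdvd φ (by
    rw [hφ, hg1]; push_cast; simp)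
  have hpQ : (p : 𝓞 F) ∈ Q := by
    have := (hQ (C (p : ℤ))).mpr (by rw [hφ, eval_C]; simp)
    simpa using this
  have hwQ : w - 1 ∈ Q := by
    have := (hQ (X - 1)).mpr (by rw [hφ]; simp)
    simpa using this
  obtain ⟨hl, he⟩ := ramification_exact p hp w Q hpQ hwQ r (by omega) hn S U (by rw [← hg]; exact hwg) hS hU
  refine ⟨Q, hQp, hl, he, ?_⟩
  have hpi : Prime (p : ℤ) := Nat.prime_iff_prime_int.mp hp
  by_contra hnd
  rw [not_dvd_discr_iff_forall_mem F (𝓞 F) hpi] at hnd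
  have hun := hnd Q inferInstance (by simpa using hpQ)
  have he1 := ramificationIdx_eq_one Q ℤ
  omega

/-- homomorphisms to prime fields from simple roots -/
theorem exists_hom {F : Type} [Field F] [NumberField F] (w : 𝓞 F) (g : ℤ[X])
    (hlift : ∀ (K : Type) [Field K] [CharZero K] (z : K), aeval z g = 0 →
        ∃ τ : F →+* K, τ (w : F) = z)
    (q : ℕ) [Fact q.Prime] (a : ℤ) (h1 : (q : ℤ) ∣ g.eval a) (h2 : ¬ (q : ℤ) ∣ g.derivative.eval a) :
    ∃ φ : 𝓞 F →+* ZMod q, φ w = (a : ZMod q) := by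
  obtain ⟨z, hz, hza⟩ := hensel_root q g a h1 h2
  obtain ⟨τ, hτ⟩ := hlift ℚ_[q] (z : ℚ_[q]) (by
    have := aeval_algebraMap_apply (A := ℤ_[q]) ℚ_[q] z g
    rw [hz, map_zero] at this
    exact this)
  obtain ⟨θ, hθ⟩ := exists_hom_padicInt q τ
  refine ⟨PadicInt.toZMod.comp θ, ?_⟩
  have : θ w = z := PadicInt.ext (by rw [hθ, hτ])
  rw [RingHom.comp_apply, this, hza]

theorem not_dvd_PP (c : ℕ → ℤ) (k : ℕ) (q : ℤ) (hq : Prime q) (x : ℤ)
    (h : ∀ i < k, ¬ q ∣ (x - c i) ∧ ¬ q ∣ (x - c i + 432)) : ¬ q ∣ (PP c k).eval x := by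
  rw [PP_eval, hq.dvd_finsetProd_iff]
  rintro ⟨i, hi, hd⟩
  have := h i (Finset.mem_range.mp hi)
  rcases hq.dvd_or_dvd hd with h1 | h1
  · exact this.1 h1
  · exact this.2 h1

theorem exists_field (k r n B : ℕ) (hk : 0 < k) (hr : r.Prime) (h1 : n < 2 * r)
    (h2 : r + 2 * k + 1 ≤ n) :
    ∃ (F : Type) (_ : Field F) (_ : NumberField F), Module.finrank ℚ F = n ∧
      IsTotallyReal F ∧ (B : ℤ) < |discr F| ∧ (∀ K : IntermediateField ℚ F, K = ⊥ ∨ K = ⊤) ∧
      ∃ x : ℕ → 𝓞 F, (∀ i < k, IsUnit (x i) ∧ IsUnit (x i + 432)) ∧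
        (∃ φ : 𝓞 F →+* ZMod 7, ∀ i < k, φ (x i) = 3) ∧
        (∃ ψ : 𝓞 F →+* ZMod 7, ∀ i < k, ψ (x i) = 5) ∧
        (∀ i < k, ∃ (q : ℕ) (_ : Fact q.Prime) (θ : 𝓞 F →+* ZMod q), q ≠ 2 ∧
          (∀ u : ZMod q, θ (x i) * u = 1 → Odd (Pts q u).card) ∧
          ∀ j < k, j ≠ i → ∀ u : ZMod q, θ (x j) * u = 1 → Even (Pts q u).card) ∧
        (∀ i < k, ∃ (q : ℕ) (_ : Fact q.Prime) (θ : 𝓞 F →+* ZMod q), q ≠ 2 ∧
          (∀ u : ZMod q, (θ (x i) + 432) * u = -1 → Odd (Pts q u).card) ∧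
          ∀ j < k, j ≠ i → ∀ u : ZMod q, (θ (x j) + 432) * u = -1 → Even (Pts q u).card) := by
  obtain ⟨q, a, b, c, hqp, hq7, hqi, hab, hpar0, hpar1, hc0, hcg, hc7, hcz, hcd⟩ := exists_data k
  have h7 : Prime (7 : ℤ) := by exact_mod_cast Nat.prime_iff_prime_int.mp (by norm_num : Nat.Prime 7)
  have hPq : ∀ l < 2 * k, ¬ (q l : ℤ) ∣ (PP c k).eval (a l) := by
    intro l hl
    apply not_dvd_PP c k _ (Nat.prime_iff_prime_int.mp (hqp l))
    intro i hi
    by_cases hil : l / 2 = i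
    · have h3 := hcd i hi l hl hil
      constructor
      · intro h4
        have := dvd_add h4 h3
        have e : a l - c i + (c i - (a l - b l)) = b l := by ring
        rw [e] at this
        exact (hab l).2.2.1 this
      · intro h4
        have := dvd_add h4 h3
        have e : a l - c i + 432 + (c i - (a l - b l)) = b l + 432 := by ring
        rw [e] at this
        exact (hab l).2.2.2 this
    · have h3 := hcz i hi l hl hil
      constructor
      · intro h4
        have := dvd_add h4 h3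
        rw [sub_add_cancel] at this
        exact (hab l).1 this
      · intro h4
        have := dvd_add h4 h3
        have e : a l - c i + 432 + c i = a l + 432 := by ring
        rw [e] at this
        exact (hab l).2.1 this
  have hP3 : ¬ (7 : ℤ) ∣ (PP c k).eval 3 := by
    apply not_dvd_PP c k _ h7
    intro i hi
    have := hc7 i hi
    omega
  have hP5 : ¬ (7 : ℤ) ∣ (PP c k).eval 5 := by
    apply not_dvd_PP c k _ h7
    intro i hi
    have := hc7 i hi
    omega
  obtain ⟨p, h, g, hp, hpB, hg, hgm, hgd, hgirr, hreal, h73, h75, hqg, S, U, hSU, hS, hU⟩ :=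
    exists_poly k (2 * k) r n B hk hr h1 h2 q a c hqp hq7 hqi hPq hP3 hP5 hc0 hcg
  obtain ⟨F, iF, iN, w, hfr, hwg, hwdvd, hlift, huniq⟩ := exists_numberField g hgm hgirr
  rw [hgd] at hfr
  obtain ⟨Q, hQp, hQl, hQe, hdisc⟩ := exists_ramified w g hwg hwdvd p hp r hr.two_le
    (by rw [hfr]; exact h1) S U hSU hS hU
  have hf7 : Fact (Nat.Prime 7) := ⟨by norm_num⟩
  -- `P(w) h(w) = 1`
  have hPw : aeval w (PP c k) * aeval w h = 1 := by
    rw [hg, map_sub, map_mul, map_one, sub_eq_zero] at hwg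
    exact hwg
  have hunit : ∀ i < k, IsUnit (w - (c i : 𝓞 F)) ∧ IsUnit (w - (c i : 𝓞 F) + 432) := by
    intro i hi
    have hd : (X - C (c i)) * (X - C (c i) + C 432) ∣ PP c k := by
      unfold PP
      exact Finset.dvd_prod_of_mem (fun i => (X - C (c i)) * (X - C (c i) + C 432))
        (Finset.mem_range.mpr hi)
    have hd1 : aeval w (X - C (c i)) ∣ 1 := by
      rw [← hPw]
      exact ((_root_.map_dvd (aeval w) ((dvd_mul_right _ _).trans hd))).mul_right _
    have hd2 : aeval w (X - C (c i) + C 432) ∣ 1 := by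
      rw [← hPw]
      exact ((_root_.map_dvd (aeval w) ((dvd_mul_left _ _).trans hd))).mul_right _
    constructor
    · have := isUnit_of_dvd_one hd1
      simpa using this
    · have := isUnit_of_dvd_one hd2
      rw [map_add, map_sub, aeval_X, aeval_C, aeval_C] at this
      simpa using this
  refine ⟨F, iF, iN, hfr, isTotallyReal_of w g hwg huniq hreal, ?_, ?_, fun i => w - (c i : 𝓞 F),
    hunit, ?_, ?_, ?_, ?_⟩
  · have h3 : (p : ℤ) ≤ |discr F| := Int.le_of_dvd (abs_pos.mpr (discr_ne_zero F)) ((dvd_abs _ _).mpr hdisc)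
    have h4 : (B : ℤ) < p := by exact_mod_cast hpB
    linarith
  · intro K
    exact no_intermediate_of_ramification (p : ℤ) (Nat.prime_iff_prime_int.mp hp) Q r hr
      (by rw [hfr]; exact h1) hQe K
  · obtain ⟨φ, hφ⟩ := exists_hom w g hlift 7 3 h73.1 h73.2
    refine ⟨φ, fun i hi => ?_⟩
    rw [map_sub, hφ, map_intCast, (ZMod.intCast_zmod_eq_zero_iff_dvd (c i) 7).mpr (hc7 i hi)]
    simp
  · obtain ⟨φ, hφ⟩ := exists_hom w g hlift 7 5 h75.1 h75.2
    refine ⟨φ, fun i hi => ?_⟩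
    rw [map_sub, hφ, map_intCast, (ZMod.intCast_zmod_eq_zero_iff_dvd (c i) 7).mpr (hc7 i hi)]
    simp
  · intro i hi
    have hf : Fact (q (2 * i)).Prime := ⟨hqp _⟩
    obtain ⟨θ, hθ⟩ := exists_hom w g hlift (q (2 * i)) (a (2 * i)) (hqg _ (by omega)).1 (hqg _ (by omega)).2
    refine ⟨q (2 * i), hf, θ, by have := hq7 (2 * i); omega, ?_, ?_⟩
    · intro u hu
      apply (hpar0 i hf u).2
      have h3 := (ZMod.intCast_zmod_eq_zero_iff_dvd _ _).mpr (hcd i hi (2 * i) (by omega) (by omega))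
      push_cast at h3
      rw [map_sub, hθ, map_intCast] at hu
      linear_combination hu + u * h3
    · intro j hj hji u hu
      apply (hpar0 i hf u).1
      have h3 := (ZMod.intCast_zmod_eq_zero_iff_dvd _ _).mpr (hcz j hj (2 * i) (by omega) (by omega))
      rw [map_sub, hθ, map_intCast, h3, sub_zero] at hu
      exact hu
  · intro i hi
    have hf : Fact (q (2 * i + 1)).Prime := ⟨hqp _⟩
    obtain ⟨θ, hθ⟩ := exists_hom w g hlift (q (2 * i + 1)) (a (2 * i + 1)) (hqg _ (by omega)).1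
      (hqg _ (by omega)).2
    refine ⟨q (2 * i + 1), hf, θ, by have := hq7 (2 * i + 1); omega, ?_, ?_⟩
    · intro u hu
      apply (hpar1 i hf u).2
      have h3 := (ZMod.intCast_zmod_eq_zero_iff_dvd _ _).mpr (hcd i hi (2 * i + 1) (by omega) (by omega))
      push_cast at h3
      rw [map_sub, hθ, map_intCast] at hu
      linear_combination hu + u * h3
    · intro j hj hji u hu
      apply (hpar1 i hf u).1
      have h3 := (ZMod.intCast_zmod_eq_zero_iff_dvd _ _).mpr (hcz j hj (2 * i + 1) (by omega) (by omega))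
      rw [map_sub, hθ, map_intCast, h3, sub_zero] at hu
      exact hu

end H39E2
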