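import Mathlib

namespace H39E2

open Finset

/-- the affine points of `y² + xy = x³ + u` -/
def Pts (q : ℕ) [Fact q.Prime] (u : ZMod q) : Finset (ZMod q × ZMod q) :=
  univ.filter fun P => P.2 ^ 2 + P.1 * P.2 = P.1 ^ 3 + u

/-- the affine points of order two -/
def Two (q : ℕ) [Fact q.Prime] (u : ZMod q) : Finset (ZMod q × ZMod q) :=
  (Pts q u).filter fun P => 2 * P.2 = -P.1

theorem card_parity (q : ℕ) [Fact q.Prime] (u : ZMod q) :
    ((Pts q u).card : ZMod 2) = ((Two q u).card : ZMod 2) := by
  classical
  have h1 : (Pts q u).card = (Two q u).card + ((Pts q u).filter fun P => ¬ (2 * P.2 = -P.1)).card := by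
    rw [Two, card_filter_add_card_filter_not]
  have h2 : ∑ P ∈ (Pts q u).filter (fun P => ¬ (2 * P.2 = -P.1)), (1 : ZMod 2) = 0 := by
    refine Finset.sum_involution (fun P _ => (P.1, -P.1 - P.2)) ?_ ?_ ?_ ?_
    · intro P _; decide
    · intro P hP _ heq
      rw [mem_filter] at hP
      apply hP.2
      have := congrArg Prod.snd heq
      simp only at this
      linear_combination -this
    · intro P hP
      rw [mem_filter, Pts, mem_filter] at hP ⊢
      refine ⟨⟨mem_univ _, ?_⟩, ?_⟩
      · simp only
        linear_combination hP.1.2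
      · simp only
        intro h; apply hP.2
        linear_combination -h
    · intro P _
      ext <;> simp
  rw [h1, Nat.cast_add]
  rw [sum_const, nsmul_eq_mul, mul_one] at h2
  rw [h2, add_zero]

/-- no root of the 2-division polynomial: even number of affine points -/
theorem even_of_empty (q : ℕ) [Fact q.Prime] (u : ZMod q)
    (h : ∀ x : ZMod q, 4 * x ^ 3 + x ^ 2 + 4 * u ≠ 0) : Even (Pts q u).card := by
  have h1 : Two q u = ∅ := by
    rw [eq_empty_iff_forall_notMem]
    intro P hP
    rw [Two, mem_filter, Pts, mem_filter] at hP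
    apply h P.1
    linear_combination -4 * hP.1.2 + (2 * P.2 + P.1) * hP.2
  have h2 := card_parity q u
  rw [h1, card_empty, Nat.cast_zero] at h2
  exact (ZMod.natCast_eq_zero_iff_even).mp h2

theorem odd_of_three (q : ℕ) [hq : Fact q.Prime] (h7 : 7 < q) (i : ZMod q) (hi : 56 * i = 1) :
    Odd (Pts q (-288 * i ^ 3)).card := by
  classical
  have hne : ∀ n : ℕ, 0 < n → (∀ p : ℕ, p.Prime → p ∣ n → p ≤ 7) → ((n : ℕ) : ZMod q) ≠ 0 := by
    intro n hn hp h
    rw [ZMod.natCast_eq_zero_iff] at h
    have := hp q hq.out h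
    omega
  have h2 : (2 : ZMod q) ≠ 0 := by
    have := hne 2 (by norm_num) (fun p hp hd => by have := Nat.le_of_dvd (by norm_num) hd; omega)
    exact_mod_cast this
  have h3 : (3 : ZMod q) ≠ 0 := by
    have := hne 3 (by norm_num) (fun p hp hd => by have := Nat.le_of_dvd (by norm_num) hd; omega)
    exact_mod_cast this
  have h5 : (5 : ZMod q) ≠ 0 := by
    have := hne 5 (by norm_num) (fun p hp hd => by have := Nat.le_of_dvd (by norm_num) hd; omega)
    exact_mod_cast this
  have hi0 : i ≠ 0 := by
    rintro rfl
    rw [mul_zero] at hi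
    exact zero_ne_one hi
  have h1 : Two q (-288 * i ^ 3) = {(-12 * i, 6 * i), (4 * i, -2 * i), (-6 * i, 3 * i)} := by
    ext P
    rw [Two, mem_filter, Pts, mem_filter]
    simp only [mem_univ, true_and, mem_insert, mem_singleton]
    constructor
    · rintro ⟨ha, hb⟩
      have hx : P.1 = -2 * P.2 := by linear_combination hb
      have h0 : (P.2 - 6 * i) * (P.2 + 2 * i) * (P.2 - 3 * i) * 8 = 0 := by
        rw [hx] at ha
        have e : (P.2 - 6 * i) * (P.2 + 2 * i) * (P.2 - 3 * i) * 8 =
          8 * P.2 ^ 3 - (56 * i) * P.2 ^ 2 + 288 * i ^ 3 := by ring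
        rw [e, hi]
        linear_combination ha
      have h8 : (8 : ZMod q) ≠ 0 := by
        have : (8 : ZMod q) = 2 ^ 3 := by norm_num
        rw [this]; exact pow_ne_zero _ h2
      rcases mul_eq_zero.mp ((mul_eq_zero.mp h0).resolve_right h8) with h | h
      · rcases mul_eq_zero.mp h with h | h
        · left
          ext
          · rw [hx]; linear_combination -2 * h
          · linear_combination h
        · right; left
          ext
          · rw [hx]; linear_combination -2 * h
          · linear_combination h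
      · right; right
        ext
        · rw [hx]; linear_combination -2 * h
        · linear_combination h
    · rintro (rfl | rfl | rfl)
      · constructor
        · simp only; linear_combination (36 * i ^ 2) * hi
        · simp only; ring
      · constructor
        · simp only; linear_combination (4 * i ^ 2) * hi
        · simp only; ring
      · constructor
        · simp only; linear_combination (9 * i ^ 2) * hi
        · simp only; ring
  have h4 : (Two q (-288 * i ^ 3)).card = 3 := by
    rw [h1, card_eq_three]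
    refine ⟨_, _, _, ?_, ?_, ?_, rfl⟩
    · intro h
      have := congrArg Prod.snd h
      simp only at this
      have e : 2 * 2 * 2 * i = 0 := by linear_combination this
      simp [h2, hi0] at e
    · intro h
      have := congrArg Prod.snd h
      simp only at this
      have e : 3 * i = 0 := by linear_combination this
      simp [h3, hi0] at e
    · intro h
      have := congrArg Prod.snd h
      simp only at this
      have e : 5 * i = 0 := by linear_combination -this
      simp [h5, hi0] at e
  have h6 := card_parity q (-288 * i ^ 3)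
  rw [h4] at h6
  rw [← ZMod.natCast_eq_one_iff_odd, h6]
  rfl

theorem exists_even (q : ℕ) [hq : Fact q.Prime] (h7 : 7 < q) :
    ∃ u : ZMod q, u ≠ 0 ∧ 1 + 432 * u ≠ 0 ∧ Even (Pts q u).card := by
  classical
  have hne : ∀ n : ℕ, 0 < n → (∀ p : ℕ, p.Prime → p ∣ n → p ≤ 7) → ((n : ℕ) : ZMod q) ≠ 0 := by
    intro n hn hp h
    rw [ZMod.natCast_eq_zero_iff] at h
    have := hp q hq.out h
    omega
  have h2 : (2 : ZMod q) ≠ 0 := by
    have := hne 2 (by norm_num) (fun p hp hd => by have := Nat.le_of_dvd (by norm_num) hd; omega)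
    exact_mod_cast this
  have h3 : (3 : ZMod q) ≠ 0 := by
    have := hne 3 (by norm_num) (fun p hp hd => by have := Nat.le_of_dvd (by norm_num) hd; omega)
    exact_mod_cast this
  -- the cubic map is not injective, hence not surjective
  let f : ZMod q → ZMod q := fun x => -(4 * x ^ 3 + x ^ 2) / 4
  have h4 : (4 : ZMod q) ≠ 0 := by
    have : (4 : ZMod q) = 2 ^ 2 := by norm_num
    rw [this]; exact pow_ne_zero _ h2
  have hni : ¬ Function.Injective f := by
    intro hinj
    have h0 : f 0 = f (-1 / 4) := by
      simp only [f]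
      field_simp
      ring
    have := hinj h0
    rw [eq_comm, div_eq_zero_iff] at this
    rcases this with h | h
    · exact (neg_ne_zero.mpr one_ne_zero) h
    · exact h4 h
  have hns : ¬ Function.Surjective f := fun h => hni (Finite.injective_iff_surjective.mpr h)
  unfold Function.Surjective at hns
  push Not at hns
  obtain ⟨u, hu⟩ := hns
  refine ⟨u, ?_, ?_, even_of_empty q u ?_⟩
  · rintro rfl
    apply hu 0
    simp [f]
  · intro h
    apply hu (-1 / 6)
    have h6 : (6 : ZMod q) ≠ 0 := by
      have : (6 : ZMod q) = 2 * 3 := by norm_num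
      rw [this]; exact mul_ne_zero h2 h3
    simp only [f]
    have h432 : (432 : ZMod q) ≠ 0 := by
      have : (432 : ZMod q) = 2 ^ 4 * 3 ^ 3 := by norm_num
      rw [this]; exact mul_ne_zero (pow_ne_zero _ h2) (pow_ne_zero _ h3)
    have e : u = -1 / 432 := by
      rw [eq_div_iff h432]
      linear_combination h
    rw [e]
    field_simp
    norm_num
  · intro x hx
    apply hu x
    simp only [f]
    rw [div_eq_iff h4]
    linear_combination -hx

theorem exists_odd (q : ℕ) [hq : Fact q.Prime] (h7 : 7 < q) :
    ∃ u : ZMod q, u ≠ 0 ∧ 1 + 432 * u ≠ 0 ∧ Odd (Pts q u).card := by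
  have hne : ∀ n : ℕ, 0 < n → (∀ p : ℕ, p.Prime → p ∣ n → p ≤ 7) → ((n : ℕ) : ZMod q) ≠ 0 := by
    intro n hn hp h
    rw [ZMod.natCast_eq_zero_iff] at h
    have := hp q hq.out h
    omega
  have h2 : (2 : ZMod q) ≠ 0 := by
    have := hne 2 (by norm_num) (fun p hp hd => by have := Nat.le_of_dvd (by norm_num) hd; omega)
    exact_mod_cast this
  have h3 : (3 : ZMod q) ≠ 0 := by
    have := hne 3 (by norm_num) (fun p hp hd => by have := Nat.le_of_dvd (by norm_num) hd; omega)
    exact_mod_cast this
  have h5 : (5 : ZMod q) ≠ 0 := by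
    have := hne 5 (by norm_num) (fun p hp hd => by have := Nat.le_of_dvd (by norm_num) hd; omega)
    exact_mod_cast this
  have h7' : (7 : ZMod q) ≠ 0 := by
    have := hne 7 (by norm_num) (fun p hp hd => by have := Nat.le_of_dvd (by norm_num) hd; omega)
    exact_mod_cast this
  have h56 : (56 : ZMod q) ≠ 0 := by
    have : (56 : ZMod q) = 2 ^ 3 * 7 := by norm_num
    rw [this]; exact mul_ne_zero (pow_ne_zero _ h2) h7'
  have hi : 56 * (56 : ZMod q)⁻¹ = 1 := mul_inv_cancel₀ h56
  have hi0 : (56 : ZMod q)⁻¹ ≠ 0 := inv_ne_zero h56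
  generalize (56 : ZMod q)⁻¹ = i at hi hi0
  refine ⟨-288 * i ^ 3, ?_, ?_, odd_of_three q h7 i hi⟩
  · have : (-288 : ZMod q) = -(2 ^ 5 * 3 ^ 2) := by norm_num
    rw [this]
    exact mul_ne_zero (neg_ne_zero.mpr (mul_ne_zero (pow_ne_zero _ h2) (pow_ne_zero _ h3)))
      (pow_ne_zero _ hi0)
  · have e : 1 + 432 * (-288 * i ^ 3) = (2 ^ 11 * 5 ^ 2) * i ^ 3 := by
      have h1 : (1 : ZMod q) = (56 * i) ^ 3 := by rw [hi]; ring
      linear_combination h1
    rw [e]
    exact mul_ne_zero (mul_ne_zero (pow_ne_zero _ h2) (pow_ne_zero _ h5)) (pow_ne_zero _ hi0)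

end H39E2
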