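import Pool.Agent.H39.E1.Poly

open Polynomial

namespace H39E1

theorem exists_h_range (m : ℕ) (hm : 2 ≤ m) (N : ℤ) (hN : 0 < N) (H : ℤ[X]) (hH : H.Monic)
    (hd : H.natDegree = m) (C0 : ℤ) (hC0 : 0 ≤ C0) :
    ∃ h : ℤ[X], h.Monic ∧ h.natDegree = m ∧ C N ∣ h - H ∧ ∃ L : ℤ, 1 ≤ L ∧
      (∀ x : ℤ, -C0 ≤ x → x ≤ 0 → 1 ≤ (-1) ^ m * h.eval x) ∧
      ∀ j : ℕ, j ≤ m → 1 ≤ (-1) ^ (m - j) * h.eval (L * (2 * (j : ℤ) + 1)) := by
  set L : ℤ := 1 + C0 + m * N * (2 * m + 1) ^ (m - 1) with hL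
  have hmN : 0 ≤ (m : ℤ) * N * (2 * m + 1) ^ (m - 1) := by positivity
  have hL433 : 1 + C0 ≤ L := by rw [hL]; linarith
  have hL1 : (m : ℤ) * N * (2 * m + 1) ^ (m - 1) ≤ L - 1 := by rw [hL]; linarith
  have hLpos : 0 < L := by linarith
  set P : ℤ[X] := ∏ i ∈ Finset.range m, (X - C (2 * L * ((i : ℤ) + 1))) with hP
  have hPm : P.Monic := monic_prod_of_monic _ _ (fun i _ => monic_X_sub_C _)
  have hPd : P.natDegree = m := by
    rw [hP, natDegree_prod_of_monic _ _ (fun i _ => monic_X_sub_C _)]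
    rw [Finset.sum_congr rfl (fun i _ => natDegree_X_sub_C _), Finset.sum_const, Finset.card_range,
      smul_eq_mul, mul_one]
  set D : ℤ[X] := H - P with hD
  have hDd : ∀ i, m ≤ i → D.coeff i = 0 := by
    intro i hi
    rw [hD, coeff_sub]
    rcases hi.eq_or_lt with rfl | hi
    · have e1 : H.coeff m = 1 := by rw [← hd]; exact hH
      have e2 : P.coeff m = 1 := by
        have := hPm.coeff_natDegree
        rwa [hPd] at this
      rw [e1, e2, sub_self]
    · rw [coeff_eq_zero_of_natDegree_lt (by omega), coeff_eq_zero_of_natDegree_lt (by omega), sub_self]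
  set R : ℤ[X] := ∑ i ∈ Finset.range m, C (D.coeff i % N) * X ^ i with hR
  have hRc : ∀ i, R.coeff i = if i < m then D.coeff i % N else 0 := by
    intro i
    rw [hR, finsetSum_coeff]
    simp only [coeff_C_mul, coeff_X_pow, mul_ite, mul_one, mul_zero]
    rw [Finset.sum_ite_eq]
    simp only [Finset.mem_range]
  have hRd : R.degree < m := by
    rw [degree_lt_iff_coeff_zero]
    intro i hi
    rw [hRc, if_neg (by omega)]
  have hbound : ∀ x B : ℤ, 1 ≤ B → |x| ≤ B → |R.eval x| ≤ m * N * B ^ (m - 1) := by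
    intro x B hB hx
    rw [hR, eval_finsetSum]
    refine (Finset.abs_sum_le_sum_abs _ _).trans ?_
    have : ∀ i ∈ Finset.range m, |eval x (C (D.coeff i % N) * X ^ i)| ≤ N * B ^ (m - 1) := by
      intro i hi
      rw [Finset.mem_range] at hi
      rw [eval_C_mul, eval_pow, eval_X, abs_mul, abs_pow]
      have h1 : |D.coeff i % N| ≤ N := by
        rw [abs_of_nonneg (Int.emod_nonneg _ hN.ne')]
        exact (Int.emod_lt_of_pos _ hN).le
      have h2 : |x| ^ i ≤ B ^ (m - 1) := by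
        calc |x| ^ i ≤ B ^ i := pow_le_pow_left₀ (abs_nonneg _) hx _
          _ ≤ B ^ (m - 1) := pow_le_pow_right₀ hB (by omega)
      exact mul_le_mul h1 h2 (by positivity) hN.le
    refine (Finset.sum_le_sum this).trans ?_
    rw [Finset.sum_const, Finset.card_range, nsmul_eq_mul, mul_assoc]
  have hbound2 : ∀ x : ℤ, |x| ≤ L * (2 * m + 1) → |R.eval x| ≤ L ^ m - 1 := by
    intro x hx
    have hB : 1 ≤ L * (2 * (m : ℤ) + 1) := by
      have : (0:ℤ) ≤ m := by positivity
      nlinarith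
    refine (hbound x _ hB hx).trans ?_
    rw [mul_pow]
    have h3 : (m : ℤ) * N * (L ^ (m - 1) * (2 * m + 1) ^ (m - 1)) =
      ((m : ℤ) * N * (2 * m + 1) ^ (m - 1)) * L ^ (m - 1) := by ring
    rw [h3]
    have h4 : (1 : ℤ) ≤ L ^ (m - 1) := one_le_pow₀ (by linarith)
    have h5 : L ^ m = L * L ^ (m - 1) := by
      rw [← pow_succ']; congr 1; omega
    rw [h5]
    nlinarith
  have hev : ∀ x : ℤ, (P + R).eval x = ∏ i ∈ Finset.range m, (x - 2 * L * ((i : ℤ) + 1)) + R.eval x := by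
    intro x
    rw [eval_add, hP, eval_prod]
    simp only [eval_sub, eval_X, eval_C]
  have hneg : ∀ a : ℤ, 0 ≤ a → a ≤ C0 → 1 ≤ (-1) ^ m * (P + R).eval (-a) := by
    intro a ha ha'
    rw [hev]
    have h1 : L ^ m ≤ (-1) ^ m * ∏ i ∈ Finset.range m, (-a - 2 * L * ((i : ℤ) + 1)) := by
      have : (-1 : ℤ) ^ m * ∏ i ∈ Finset.range m, (-a - 2 * L * ((i : ℤ) + 1)) =
        ∏ i ∈ Finset.range m, (a + 2 * L * ((i : ℤ) + 1)) := by
        have h := Finset.prod_neg (s := Finset.range m) (f := fun i : ℕ => (-a - 2 * L * ((i : ℤ) + 1)))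
        rw [Finset.card_range] at h
        rw [← h]
        refine Finset.prod_congr rfl fun i _ => by ring
      rw [this]
      calc L ^ m = ∏ i ∈ Finset.range m, L := by rw [Finset.prod_const, Finset.card_range]
        _ ≤ _ := Finset.prod_le_prod (fun i _ => hLpos.le) (fun i _ => by
          have : (0:ℤ) ≤ i := by positivity
          nlinarith)
    have h2 := hbound2 (-a) (by
      rw [abs_neg, abs_of_nonneg ha]
      have : (0:ℤ) ≤ m := by positivity
      nlinarith)
    have h3 : -(L ^ m - 1) ≤ (-1) ^ m * R.eval (-a) := by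
      have : |(-1) ^ m * R.eval (-a)| ≤ L ^ m - 1 := by
        rw [abs_mul, abs_pow, abs_neg, abs_one, one_pow, one_mul]; exact h2
      exact (abs_le.mp this).1
    rw [mul_add]
    linarith
  refine ⟨P + R, ?_, ?_, ?_, L, by linarith, ?_, ?_⟩
  · apply hPm.add_of_left
    rw [degree_eq_natDegree hPm.ne_zero, hPd]
    exact hRd
  · rw [natDegree_add_eq_left_of_degree_lt, hPd]
    rw [degree_eq_natDegree hPm.ne_zero, hPd]
    exact hRd
  · have : P + R - H = R - D := by rw [hD]; ring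
    rw [this, C_dvd_iff_dvd_coeff]
    intro i
    rw [coeff_sub, hRc]
    split_ifs with hi
    · refine ⟨-(D.coeff i / N), ?_⟩
      have := Int.emod_add_mul_ediv (D.coeff i) N
      linarith
    · rw [hDd i (by omega), sub_self]
      exact dvd_zero _
  · intro x hx1 hx2
    have := hneg (-x) (by linarith) (by linarith)
    rwa [neg_neg] at this
  · intro j hj
    rw [hev]
    have h1 : L ^ m ≤ (-1) ^ (m - j) * ∏ i ∈ Finset.range m, (L * (2 * (j : ℤ) + 1) - 2 * L * ((i : ℤ) + 1)) := by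
      have : ∏ i ∈ Finset.range m, (L * (2 * (j : ℤ) + 1) - 2 * L * ((i : ℤ) + 1)) =
        L ^ m * ∏ i ∈ Finset.range m, (2 * (j : ℤ) - 1 - 2 * i) := by
        calc _ = ∏ i ∈ Finset.range m, (L * (2 * (j : ℤ) - 1 - 2 * i)) :=
              Finset.prod_congr rfl fun i _ => by ring
          _ = _ := by rw [Finset.prod_mul_distrib, Finset.prod_const, Finset.card_range]
      rw [this]
      have hs := sign_prod m j hj
      have hLm : 0 < L ^ m := by positivity
      calc L ^ m = L ^ m * 1 := (mul_one _).symm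
        _ ≤ L ^ m * ((-1) ^ (m - j) * ∏ i ∈ Finset.range m, (2 * (j : ℤ) - 1 - 2 * i)) :=
          mul_le_mul_of_nonneg_left hs hLm.le
        _ = _ := by ring
    have h2 := hbound2 (L * (2 * (j : ℤ) + 1)) (by
      have hj' : (j : ℤ) ≤ m := by exact_mod_cast hj
      have hj0 : (0:ℤ) ≤ j := by positivity
      rw [abs_of_nonneg (by positivity)]
      nlinarith)
    have h3 : -(L ^ m - 1) ≤ (-1) ^ (m - j) * R.eval (L * (2 * (j : ℤ) + 1)) := by
      have : |(-1) ^ (m - j) * R.eval (L * (2 * (j : ℤ) + 1))| ≤ L ^ m - 1 := by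
        rw [abs_mul, abs_pow, abs_neg, abs_one, one_pow, one_mul]; exact h2
      exact (abs_le.mp this).1
    rw [mul_add]
    linarith

end H39E1
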